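import Pool.Agent.Q145.LQ.Stm
import Pool.Agent.Q145.SZ.US
import Pool.Agent.Q111.SZ.PWB
import Pool.Agent.Q58.SZ.Cls

/-!
# Project LQ: from exceptional pairs to exceptional differences (H2U)
-/

set_option autoImplicit false

namespace Pool.Agent.Q53.LQ.H2U

open Finset Filter
open Pool.Agent.Q145.SZ Pool.Agent.Q145.LQ

theorem wt_nonneg (u : ℕ) : 0 ≤ wt u := by
  unfold wt
  split_ifs
  · exact Real.log_natCast_nonneg u
  · exact le_rfl

theorem wt_le {u N : ℕ} (h : u ≤ N) : wt u ≤ Real.log N := by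
  unfold wt
  split_ifs with hp
  · exact Real.log_le_log (by exact_mod_cast hp.pos) (by exact_mod_cast h)
  · exact Real.log_natCast_nonneg N

theorem ioc_cls {W : ℕ} [NeZero W] {a b : ℕ} (hab : a ≤ b) (β : ZMod W) :
    |(((Ioc a b).filter fun x : ℕ => (x : ZMod W) = β).card : ℝ) - ((b : ℝ) - a) / W| ≤ 1 := by
  have h := Pool.Agent.Q58.SZ.count_mod a b hab (Nat.pos_of_ne_zero (NeZero.ne W)) β.val
  have e : ((Ioc a b).filter fun x : ℕ => (x : ZMod W) = β) = (Ioc a b).filter fun x => x ≡ β.val [MOD W] := by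
    refine filter_congr fun n _ => ?_
    conv_lhs => rw [← ZMod.natCast_zmod_val β]
    exact ZMod.natCast_eq_natCast_iff _ _ _
  rw [e]
  exact h

section

variable {W : ℕ} [NeZero W]

/-- sums of a bounded function over a class in an interval -/
theorem sum_bd {a b : ℕ} (hab : a ≤ b) (β : ZMod W) (f : ℕ → ℝ) (B : ℝ) (hB : 0 ≤ B)
    (hf : ∀ u ∈ Ioc a b, 0 ≤ f u ∧ f u ≤ B) :
    0 ≤ ∑ u ∈ (Ioc a b).filter (fun x : ℕ => (x : ZMod W) = β), f u ∧
    ∑ u ∈ (Ioc a b).filter (fun x : ℕ => (x : ZMod W) = β), f u ≤ (((b : ℝ) - a) / W + 1) * B := by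
  constructor
  · exact sum_nonneg fun u hu => (hf u (mem_filter.1 hu).1).1
  · refine (sum_le_card_nsmul _ _ _ fun u hu => (hf u (mem_filter.1 hu).1).2).trans ?_
    rw [nsmul_eq_mul]
    have := (abs_le.1 (ioc_cls hab β)).2
    exact mul_le_mul_of_nonneg_right (by linarith) hB

theorem shift_sum (X k m' δ : ℕ) (β : ZMod W) (hδ : δ ≤ X) (hk : k ≤ 2 * X) (hm : m' ≤ 2 * X) :
    |∑ s ∈ cls X β, wt (k + δ + s) * wt (m' + δ + s) -
      ∑ s ∈ cls X (β + (δ : ZMod W)), wt (k + s) * wt (m' + s)| ≤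
      ((δ : ℝ) / W + 1) * Real.log ((4 * X : ℕ) : ℝ) ^ 2 := by
  set f : ℕ → ℝ := fun u => wt (k + u) * wt (m' + u) with hf
  set c : ZMod W := β + (δ : ZMod W) with hc
  have hf0 : ∀ u, 0 ≤ f u := fun u => mul_nonneg (wt_nonneg _) (wt_nonneg _)
  have hfb : ∀ u, u ≤ X + δ → f u ≤ Real.log ((4 * X : ℕ) : ℝ) ^ 2 := by
    intro u hu
    rw [hf, sq]
    exact mul_le_mul (wt_le (by omega)) (wt_le (by omega)) (wt_nonneg _) (Real.log_natCast_nonneg _)
  have h1 : ∑ s ∈ cls X β, wt (k + δ + s) * wt (m' + δ + s) =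
      ∑ u ∈ (Ioc δ (X + δ)).filter (fun x : ℕ => (x : ZMod W) = c), f u := by
    refine sum_nbij' (fun s => s + δ) (fun u => u - δ) ?_ ?_ ?_ ?_ ?_
    · intro s hs
      unfold cls at hs
      rw [mem_filter, mem_Icc] at hs
      rw [mem_filter, mem_Ioc]
      refine ⟨by omega, ?_⟩
      rw [Nat.cast_add, hs.2, hc]
    · intro u hu
      rw [mem_filter, mem_Ioc] at hu
      unfold cls
      rw [mem_filter, mem_Icc]
      refine ⟨by omega, ?_⟩
      rw [Nat.cast_sub hu.1.1.le, hu.2, hc]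
      ring
    · intro s _
      show s + δ - δ = s
      omega
    · intro u hu
      rw [mem_filter, mem_Ioc] at hu
      show u - δ + δ = u
      omega
    · intro s _
      rw [hf]
      show wt (k + δ + s) * wt (m' + δ + s) = wt (k + (s + δ)) * wt (m' + (s + δ))
      rw [show k + δ + s = k + (s + δ) by ring, show m' + δ + s = m' + (s + δ) by ring]
  have h2 : ∑ s ∈ cls X c, wt (k + s) * wt (m' + s) =
      ∑ u ∈ (Ioc 0 X).filter (fun x : ℕ => (x : ZMod W) = c), f u := rfl
  have h3 : (Ioc δ (X + δ)).filter (fun x : ℕ => (x : ZMod W) = c) =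
      (Ioc δ X).filter (fun x : ℕ => (x : ZMod W) = c) ∪ (Ioc X (X + δ)).filter (fun x : ℕ => (x : ZMod W) = c) := by
    rw [← filter_union, Ioc_union_Ioc_eq_Ioc hδ (by omega)]
  have h4 : (Ioc 0 X).filter (fun x : ℕ => (x : ZMod W) = c) =
      (Ioc 0 δ).filter (fun x : ℕ => (x : ZMod W) = c) ∪ (Ioc δ X).filter (fun x : ℕ => (x : ZMod W) = c) := by
    rw [← filter_union, Ioc_union_Ioc_eq_Ioc (Nat.zero_le _) hδ]
  have d3 : Disjoint ((Ioc δ X).filter (fun x : ℕ => (x : ZMod W) = c))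
      ((Ioc X (X + δ)).filter (fun x : ℕ => (x : ZMod W) = c)) := by
    rw [Finset.disjoint_left]
    intro a ha hb
    rw [mem_filter, mem_Ioc] at ha hb
    omega
  have d4 : Disjoint ((Ioc 0 δ).filter (fun x : ℕ => (x : ZMod W) = c))
      ((Ioc δ X).filter (fun x : ℕ => (x : ZMod W) = c)) := by
    rw [Finset.disjoint_left]
    intro a ha hb
    rw [mem_filter, mem_Ioc] at ha hb
    omega
  rw [h1, h2, h3, h4, sum_union d3, sum_union d4]
  have hL0 : 0 ≤ Real.log ((4 * X : ℕ) : ℝ) ^ 2 := by positivity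
  have b1 := sum_bd (W := W) (show X ≤ X + δ by omega) c f _ hL0 fun u hu => by
    rw [mem_Ioc] at hu
    exact ⟨hf0 u, hfb u (by omega)⟩
  have b2 := sum_bd (W := W) (show 0 ≤ δ by omega) c f _ hL0 fun u hu => by
    rw [mem_Ioc] at hu
    exact ⟨hf0 u, hfb u (by omega)⟩
  have e1 : (((X + δ : ℕ) : ℝ) - X) = δ := by push_cast; ring
  have e2 : ((δ : ℝ) - (0 : ℕ)) = δ := by push_cast; ring
  rw [e1] at b1
  rw [e2] at b2
  rw [abs_le]
  constructor <;> linarith [b1.1, b1.2, b2.1, b2.2]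

theorem shift_B2 (X k m' δ : ℕ) (β : ZMod W) (hδ : δ ≤ X) (hk : k ≤ 2 * X) (hm : m' ≤ 2 * X) (hWX : 4 * W ≤ X) :
    |B2 X (k + δ) (m' + δ) β - B2 X k m' (β + (δ : ZMod W))| ≤
      2 * ((δ : ℝ) + 3 * W) * Real.log ((4 * X : ℕ) : ℝ) ^ 2 / X := by
  have h := shift_sum X k m' δ β hδ hk hm
  set Λ := Real.log ((4 * X : ℕ) : ℝ) ^ 2 with hΛ
  have hΛ0 : 0 ≤ Λ := by positivity
  set S := ∑ s ∈ cls X β, wt (k + δ + s) * wt (m' + δ + s) with hS
  set S' := ∑ s ∈ cls X (β + (δ : ZMod W)), wt (k + s) * wt (m' + s) with hS'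
  have hW0 : (0 : ℝ) < W := by exact_mod_cast Nat.pos_of_ne_zero (NeZero.ne W)
  have hWXr : 4 * (W : ℝ) ≤ X := by exact_mod_cast hWX
  have hX0 : (0 : ℝ) < X := by linarith
  have c1 := abs_le.1 (Pool.Agent.Q58.SZ.card_cls X β)
  have c2 := abs_le.1 (Pool.Agent.Q58.SZ.card_cls X (β + (δ : ZMod W)))
  have hXW : 4 ≤ (X : ℝ) / W := by
    rw [le_div_iff₀ hW0]
    exact hWXr
  unfold B2
  rw [← hS, ← hS']
  set p := ((cls X β).card : ℝ) with hp
  set p' := ((cls X (β + (δ : ZMod W))).card : ℝ) with hp'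
  have hp0 : (X : ℝ) / (2 * W) ≤ p := by
    have : (X : ℝ) / (2 * W) = (X : ℝ) / W / 2 := by field_simp
    rw [this]
    linarith [c1.1]
  have hp1 : 0 < p := lt_of_lt_of_le (by positivity) hp0
  have hp2 : 0 < p' := by linarith [c2.1]
  have hSb : S' ≤ p' * Λ := by
    rw [hS', hp']
    refine (sum_le_card_nsmul _ _ Λ fun s hs => ?_).trans (le_of_eq (nsmul_eq_mul _ _))
    unfold cls at hs
    rw [mem_filter, mem_Icc] at hs
    rw [hΛ, sq]
    exact mul_le_mul (wt_le (by omega)) (wt_le (by omega)) (wt_nonneg _) (Real.log_natCast_nonneg _)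
  have hS0 : 0 ≤ S' := sum_nonneg fun s _ => mul_nonneg (wt_nonneg _) (wt_nonneg _)
  have hb0 : 0 ≤ S' / p' := by positivity
  have hb1 : S' / p' ≤ Λ := by
    rw [div_le_iff₀ hp2]
    linarith
  have e : S / p - S' / p' = ((S - S') + (p' - p) * (S' / p')) / p := by
    field_simp
    ring
  rw [e, abs_div, abs_of_pos hp1]
  have h1 : |(S - S') + (p' - p) * (S' / p')| ≤ ((δ : ℝ) / W + 1) * Λ + 2 * Λ := by
    refine (abs_add_le _ _).trans (add_le_add h ?_)
    rw [abs_mul, abs_of_nonneg hb0]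
    refine mul_le_mul ?_ hb1 hb0 (by norm_num)
    rw [abs_le]
    constructor <;> linarith [c1.1, c1.2, c2.1, c2.2]
  have h2 : ((δ : ℝ) / W + 1) * Λ + 2 * Λ = (δ + 3 * W) * Λ / W := by
    field_simp
    ring
  rw [h2] at h1
  calc |(S - S') + (p' - p) * (S' / p')| / p ≤ ((δ + 3 * W) * Λ / W) / p := by gcongr
    _ ≤ ((δ + 3 * W) * Λ / W) / ((X : ℝ) / (2 * W)) := by gcongr
    _ = _ := by field_simp

end

theorem B2_symm {W : ℕ} [NeZero W] (X n m : ℕ) (β : ZMod W) : B2 X n m β = B2 X m n β := by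
  unfold B2
  congr 1
  exact sum_congr rfl fun s _ => mul_comm _ _

theorem Us_symm {W : ℕ} [NeZero W] (n m : ZMod W) : Us n m = Us m n := by
  unfold Us
  ext β
  simp only [mem_filter, mem_univ, true_and]
  exact and_comm

theorem dst_symm (n m : ℕ) : dst n m = dst m n := by
  unfold dst
  omega

theorem one_le_vv (W : ℕ) [NeZero W] : 1 ≤ vv W := by
  have hW0 : 0 < W := Nat.pos_of_ne_zero (NeZero.ne W)
  unfold vv
  rw [one_le_div (by exact_mod_cast Nat.totient_pos.2 hW0)]
  exact_mod_cast Nat.totient_le W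

theorem main : S_H2U := by
  classical
  intro A
  obtain ⟨hpb1, z₀, hpb2⟩ := Pool.Agent.Q111.SZ.t_PWB
  obtain ⟨-, -, hSP⟩ := Pool.Agent.Q145.SZ.t_US
  have hev : ∀ᶠ X : ℕ in atTop, 3 ≤ Real.log X ∧ (z₀ : ℝ) + 8 ≤ 64 * Real.log (Real.log X) ∧
      24 * Real.log X ^ (A + 4) ≤ Real.exp (Real.log X / 2) ∧ 4 ≤ X := by
    have h1 : Tendsto (fun X : ℕ => Real.log X) atTop atTop :=
      Real.tendsto_log_atTop.comp tendsto_natCast_atTop_atTop
    have h2 : Tendsto (fun X : ℕ => 64 * Real.log (Real.log X)) atTop atTop :=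
      (Real.tendsto_log_atTop.comp h1).const_mul_atTop (by norm_num)
    have h3 : ∀ᶠ x : ℝ in atTop, 24 * x ^ (A + 4) ≤ Real.exp (x / 2) := by
      have h4 := (isLittleO_pow_exp_pos_mul_atTop (A + 4) (b := 1 / 2) (by norm_num)).def
        (c := 1 / 24) (by norm_num)
      filter_upwards [h4, eventually_ge_atTop 0] with x hx hx0
      rw [Real.norm_eq_abs, Real.norm_eq_abs, abs_of_nonneg (by positivity), Real.abs_exp] at hx
      have e : 1 / 2 * x = x / 2 := by ring
      rw [e] at hx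
      linarith
    filter_upwards [h1.eventually_ge_atTop 3, h2.eventually_ge_atTop _, h1.eventually h3,
      eventually_ge_atTop 4] with X a b c d
    exact ⟨a, b, c, d⟩
  obtain ⟨X₀, hX₀⟩ := hev.exists_forall_of_atTop
  refine ⟨2 * A + 5, X₀, by omega, ?_⟩
  intro z X hX hz1 hz2 hH
  obtain ⟨hL3, hLz, hLB, hX4⟩ := hX₀ X hX
  obtain ⟨E, hE, hEb⟩ := hH
  have hX0 : (0 : ℝ) < X := by exact_mod_cast (show 0 < X by omega)
  set L := Real.log X with hL
  have hXe : Real.exp L = X := Real.exp_log hX0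
  have hz8 : z₀ + 8 ≤ z := by
    have : ((z₀ + 8 : ℕ) : ℝ) ≤ z := by
      push_cast
      linarith
    exact_mod_cast this
  have hz0r : (0 : ℝ) ≤ z := Nat.cast_nonneg _
  set W := PW z with hW
  have hW1 : (1 : ℝ) ≤ W := by exact_mod_cast Nat.pos_of_ne_zero (NeZero.ne W)
  have hW0 : (0 : ℝ) < W := by linarith
  have hWlow : Real.exp ((z : ℝ) / 2) ≤ W := hpb2 z (by omega)
  have hLpos : 0 < L := by linarith
  have hWL : 16 * L ≤ W := by
    have h1 : L ^ 32 ≤ W := by
      refine le_trans ?_ hWlow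
      have : L ^ 32 = Real.exp (32 * Real.log L) := by
        rw [mul_comm, Real.exp_mul, Real.exp_log hLpos]
        norm_cast
      rw [this]
      refine Real.exp_le_exp.2 ?_
      linarith
    refine le_trans ?_ h1
    have h2 : (16 : ℝ) ≤ L ^ 31 := by
      calc (16 : ℝ) ≤ 3 ^ 31 := by norm_num
        _ ≤ L ^ 31 := by gcongr
    calc 16 * L ≤ L ^ 31 * L := by gcongr
      _ = L ^ 32 := by ring
  have hWup : (W : ℝ) ≤ Real.exp (L / 2) := by
    refine (hpb1 z).trans ?_
    have h1 : (4 : ℝ) ^ z = Real.exp (z * Real.log 4) := by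
      rw [mul_comm, Real.exp_mul, Real.exp_log (by norm_num)]
      norm_cast
    rw [h1]
    refine Real.exp_le_exp.2 ?_
    have h2 : Real.log 4 ≤ 2 := by
      have : Real.log 4 = 2 * Real.log 2 := by
        rw [show (4 : ℝ) = 2 ^ 2 by norm_num, Real.log_pow]
        norm_num
      rw [this]
      linarith [Real.log_two_lt_d9]
    have h3 : z * Real.log 4 ≤ z * 2 := mul_le_mul_of_nonneg_left h2 hz0r
    linarith
  have hLBW : 24 * L ^ (A + 4) * W ≤ X := by
    calc 24 * L ^ (A + 4) * W ≤ Real.exp (L / 2) * Real.exp (L / 2) := by gcongr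
      _ = X := by
        rw [← Real.exp_add, ← hXe]
        congr 1
        ring
  have hLB1 : 1 ≤ L ^ (A + 4) := one_le_pow₀ (by linarith)
  have hWX : 4 * W ≤ X := by
    have h1 : 4 * (W : ℝ) ≤ X := by
      refine le_trans ?_ hLBW
      nlinarith
    exact_mod_cast h1
  -- the length
  set x : ℝ := (X : ℝ) / (8 * L ^ (A + 4)) with hx
  have hx1 : 1 ≤ x := by
    rw [hx, one_le_div (by positivity)]
    refine le_trans ?_ hLBW
    have : 8 * L ^ (A + 4) * 1 ≤ 24 * L ^ (A + 4) * W := by gcongr; norm_num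
    linarith
  set Δ := ⌊x⌋₊ with hΔ
  have hΔ1 : 1 ≤ Δ := Nat.le_floor (by exact_mod_cast hx1)
  have hΔr1 : (1 : ℝ) ≤ Δ := by exact_mod_cast hΔ1
  have hΔx : (Δ : ℝ) ≤ x := Nat.floor_le (by linarith)
  have hΔlow : x ≤ 2 * Δ := by
    have := Nat.lt_floor_add_one x
    rw [← hΔ] at this
    linarith
  have hΔX : 8 * Δ ≤ X := by
    have h1 : 8 * (Δ : ℝ) ≤ X := by
      have h2 : 8 * x ≤ X := by
        rw [hx, mul_div_assoc']
        rw [div_le_iff₀ (by positivity)]
        nlinarith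
      linarith
    exact_mod_cast h1
  -- exceptional differences
  set D : ℕ → Finset ℕ := fun t => (Icc 1 X).filter fun h =>
    ∃ k, k % Δ = t ∧ X < k ∧ k + h ≤ 2 * X ∧ (k, k + h) ∈ E with hD
  have hsum : ∑ t ∈ range Δ, (D t).card ≤ E.card := by
    rw [← card_sigma]
    have h1 : ((range Δ).sigma D).card ≤ ((E.image fun e : ℕ × ℕ => (⟨e.1 % Δ, e.2 - e.1⟩ : (_ : ℕ) × ℕ))).card := by
      refine card_le_card fun a ha => ?_
      rw [mem_sigma] at ha
      obtain ⟨-, ha2⟩ := ha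
      rw [hD, mem_filter] at ha2
      obtain ⟨-, k, hk1, -, -, hk4⟩ := ha2
      rw [mem_image]
      refine ⟨(k, k + a.2), hk4, ?_⟩
      show (⟨k % Δ, k + a.2 - k⟩ : (_ : ℕ) × ℕ) = a
      rw [hk1, Nat.add_sub_cancel_left]
    exact h1.trans card_image_le
  obtain ⟨t, ht, htD⟩ : ∃ t ∈ range Δ, ((D t).card : ℝ) ≤ (E.card : ℝ) / Δ := by
    refine exists_le_of_sum_le (nonempty_range_iff.2 (by omega)) ?_
    rw [sum_const, card_range, nsmul_eq_mul, mul_div_cancel₀ _ (by linarith)]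
    exact_mod_cast hsum
  rw [mem_range] at ht
  refine ⟨D t, filter_subset _ _, ?_, ?_⟩
  · refine htD.trans ?_
    have h1 : (E.card : ℝ) / Δ ≤ ((X : ℝ) ^ 2 / (W : ℝ) ^ (2 * A + 5)) / (x / 2) := by
      gcongr
      linarith
    refine h1.trans ?_
    rw [hx, div_div, div_le_div_iff₀ (by positivity) (by positivity)]
    have h2 : (W : ℝ) ^ (2 * A + 5) = W ^ A * W ^ (A + 4) * W := by ring
    rw [h2]
    have h3 : 16 * L ^ (A + 4) ≤ (W : ℝ) ^ (A + 4) * W := by
      have h4 : L ^ (A + 4) ≤ (W : ℝ) ^ (A + 4) := by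
        gcongr
        linarith
      have h5 : (16 : ℝ) ≤ W := by linarith
      nlinarith
    have h6 : (X : ℝ) ^ 2 * W ^ A = (X * W ^ A * (X / (16 * L ^ (A + 4)))) * (16 * L ^ (A + 4)) := by
      field_simp
    have h7 : (X : ℝ) * (W ^ A * W ^ (A + 4) * W * (X / (8 * L ^ (A + 4)) / 2)) =
        (X * W ^ A * (X / (16 * L ^ (A + 4)))) * (W ^ (A + 4) * W) := by
      field_simp
      ring
    rw [h6, h7]
    gcongr
  · -- the bound
    have hmain : ∀ n ∈ Ioc X (2 * X), ∀ m ∈ Ioc X (2 * X), 5 * X < 4 * n → n < m → m - n ∉ D t →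
        ∑ β ∈ Us (n : ZMod W) (m : ZMod W), (B2 X n m β - vv W ^ 2 * SP z X (m - n)) ^ 2 ≤
        (1 / L ^ A * vv W ^ 2 * SP z X (m - n)) ^ 2 * (Us (n : ZMod W) (m : ZMod W)).card := by
      intro n hn m hm hn5 hnm hnD
      rw [mem_Ioc] at hn hm
      set h := m - n with hh
      set δ := (n - t) % Δ with hδ
      have hδΔ : δ < Δ := Nat.mod_lt _ hΔ1
      set k := n - δ with hk
      have hk1 : k % Δ = t := by
        have h1 : n - t = Δ * ((n - t) / Δ) + δ := (Nat.div_add_mod _ _).symm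
        have h2 : k = t + Δ * ((n - t) / Δ) := by omega
        rw [h2, Nat.add_mul_mod_self_left, Nat.mod_eq_of_lt ht]
      have hkX : X < k := by omega
      have hkh : k + h ≤ 2 * X := by omega
      have hkE : (k, k + h) ∉ E := by
        intro hin
        apply hnD
        rw [hD, mem_filter, mem_Icc]
        exact ⟨by omega, k, hk1, hkX, hkh, hin⟩
      have hb := hEb k (mem_Ioc.2 ⟨hkX, by omega⟩) (k + h) (mem_Ioc.2 ⟨by omega, hkh⟩) (by omega) hkE
      have hdst : dst k (k + h) = h := by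
        unfold dst
        omega
      rw [hdst] at hb
      have hnk : n = k + δ := by omega
      have hmk : m = (k + h) + δ := by omega
      set M : ℝ := vv W ^ 2 * SP z X h with hM
      have hM1 : 1 / 2 ≤ M := by
        have h1 := one_le_vv W
        have h2 := hSP z X h (by omega)
        have h3 : 1 ≤ vv W ^ 2 := one_le_pow₀ h1
        rw [hM]
        nlinarith
      set η : ℝ := 2 / L ^ (A + 2) with hη
      have hη0 : 0 ≤ η := by positivity
      have hdiff : ∀ β : ZMod W, |B2 X n m β - B2 X k (k + h) (β + (δ : ZMod W))| ≤ η := by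
        intro β
        have h1 := shift_B2 (W := W) X k (k + h) δ β (by omega) (by omega) (by omega) hWX
        rw [← hnk, ← hmk] at h1
        refine h1.trans ?_
        have h2 : Real.log ((4 * X : ℕ) : ℝ) ≤ 2 * L := by
          push_cast
          rw [Real.log_mul (by norm_num) hX0.ne']
          have : Real.log 4 ≤ L := Real.log_le_log (by norm_num) (by exact_mod_cast hX4)
          linarith
        have h3 : Real.log ((4 * X : ℕ) : ℝ) ^ 2 ≤ 4 * L ^ 2 := by
          calc Real.log ((4 * X : ℕ) : ℝ) ^ 2 ≤ (2 * L) ^ 2 :=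
                pow_le_pow_left₀ (Real.log_natCast_nonneg _) h2 2
            _ = _ := by ring
        have h4 : (δ : ℝ) * (8 * L ^ (A + 4)) ≤ X := by
          have h5 : (δ : ℝ) ≤ x := le_trans (by exact_mod_cast hδΔ.le) hΔx
          rw [hx, le_div_iff₀ (by positivity)] at h5
          exact h5
        rw [hη, div_le_div_iff₀ hX0 (by positivity)]
        calc 2 * ((δ : ℝ) + 3 * W) * Real.log ((4 * X : ℕ) : ℝ) ^ 2 * L ^ (A + 2) ≤
              2 * ((δ : ℝ) + 3 * W) * (4 * L ^ 2) * L ^ (A + 2) := by gcongr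
          _ = δ * (8 * L ^ (A + 4)) + 24 * L ^ (A + 4) * W := by ring
          _ ≤ 2 * X := by linarith
      have hre : ∀ g : ZMod W → ℝ, ∑ β ∈ Us (n : ZMod W) (m : ZMod W), g (β + (δ : ZMod W)) =
          ∑ β ∈ Us (k : ZMod W) ((k + h : ℕ) : ZMod W), g β := by
        intro g
        refine sum_nbij' (fun β => β + (δ : ZMod W)) (fun β => β - (δ : ZMod W)) ?_ ?_ ?_ ?_ ?_
        · intro β hβ
          unfold Us at hβ ⊢
          simp only [mem_filter, mem_univ, true_and] at hβ ⊢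
          have e1 : (k : ZMod W) + (β + (δ : ZMod W)) = (n : ZMod W) + β := by
            rw [hnk]; push_cast; ring
          have e2 : ((k + h : ℕ) : ZMod W) + (β + (δ : ZMod W)) = (m : ZMod W) + β := by
            rw [hmk]; push_cast; ring
          rw [e1, e2]
          exact hβ
        · intro β hβ
          unfold Us at hβ ⊢
          simp only [mem_filter, mem_univ, true_and] at hβ ⊢
          have e1 : (n : ZMod W) + (β - (δ : ZMod W)) = (k : ZMod W) + β := by
            rw [hnk]; push_cast; ring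
          have e2 : (m : ZMod W) + (β - (δ : ZMod W)) = ((k + h : ℕ) : ZMod W) + β := by
            rw [hmk]; push_cast; ring
          rw [e1, e2]
          exact hβ
        · intro β _
          simp
        · intro β _
          simp
        · intro β _
          rfl
      have hcard : ((Us (n : ZMod W) (m : ZMod W)).card : ℝ) =
          ((Us (k : ZMod W) ((k + h : ℕ) : ZMod W)).card : ℝ) := by
        have := hre fun _ => 1
        simpa using this
      have hpt : ∀ β : ZMod W, (B2 X n m β - M) ^ 2 ≤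
          2 * (B2 X k (k + h) (β + (δ : ZMod W)) - M) ^ 2 + 2 * η ^ 2 := by
        intro β
        have h1 := hdiff β
        have h2 : (B2 X n m β - B2 X k (k + h) (β + (δ : ZMod W))) ^ 2 ≤ η ^ 2 := by
          rw [← sq_abs]
          exact pow_le_pow_left₀ (abs_nonneg _) h1 2
        nlinarith [sq_nonneg ((B2 X n m β - B2 X k (k + h) (β + (δ : ZMod W))) -
          (B2 X k (k + h) (β + (δ : ZMod W)) - M))]
      have hs1 : ∑ β ∈ Us (n : ZMod W) (m : ZMod W), (B2 X n m β - M) ^ 2 ≤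
          2 * ((1 / L ^ (2 * A + 5) * vv W ^ 2 * SP z X h) ^ 2 *
            ((Us (n : ZMod W) (m : ZMod W)).card : ℝ)) +
          2 * η ^ 2 * ((Us (n : ZMod W) (m : ZMod W)).card : ℝ) := by
        refine (sum_le_sum fun β _ => hpt β).trans ?_
        rw [sum_add_distrib, ← mul_sum, sum_const, nsmul_eq_mul,
          hre fun b => (B2 X k (k + h) b - M) ^ 2]
        have h2 := hb
        rw [← hcard] at h2
        have h3 := mul_le_mul_of_nonneg_left h2 (show (0 : ℝ) ≤ 2 by norm_num)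
        refine le_trans (add_le_add h3 le_rfl) (le_of_eq ?_)
        ring
      refine hs1.trans ?_
      set U : ℝ := ((Us (n : ZMod W) (m : ZMod W)).card : ℝ) with hU
      have hU0 : 0 ≤ U := Nat.cast_nonneg _
      have e1 : (1 / L ^ (2 * A + 5) * vv W ^ 2 * SP z X h) ^ 2 = M ^ 2 / L ^ (4 * A + 10) := by
        rw [hM]
        field_simp
        ring
      have e2 : (1 / L ^ A * vv W ^ 2 * SP z X h) ^ 2 = M ^ 2 / L ^ (2 * A) := by
        rw [hM]
        field_simp
        ring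
      have e3 : η ^ 2 = 4 / L ^ (2 * A + 4) := by
        rw [hη]
        field_simp
        ring
      rw [e1, e2, e3]
      have hfin : 2 * (M ^ 2 / L ^ (4 * A + 10)) + 2 * (4 / L ^ (2 * A + 4)) ≤ M ^ 2 / L ^ (2 * A) := by
        have g1 : M ^ 2 / L ^ (4 * A + 10) ≤ M ^ 2 / L ^ (2 * A + 4) :=
          div_le_div_of_nonneg_left (by positivity) (by positivity)
            (pow_le_pow_right₀ (by linarith) (by omega))
        have g2 : 4 / L ^ (2 * A + 4) ≤ 16 * (M ^ 2 / L ^ (2 * A + 4)) := by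
          rw [mul_div_assoc']
          gcongr
          nlinarith
        have g3 : 34 * (M ^ 2 / L ^ (2 * A + 4)) ≤ M ^ 2 / L ^ (2 * A) := by
          have h81 : (81 : ℝ) ≤ L ^ 4 := by
            calc (81 : ℝ) = 3 ^ 4 := by norm_num
              _ ≤ L ^ 4 := by gcongr
          rw [mul_div_assoc', div_le_div_iff₀ (by positivity) (by positivity)]
          calc 34 * M ^ 2 * L ^ (2 * A) ≤ L ^ 4 * M ^ 2 * L ^ (2 * A) := by
                gcongr
                linarith
            _ = M ^ 2 * L ^ (2 * A + 4) := by ring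
        linarith
      calc 2 * (M ^ 2 / L ^ (4 * A + 10) * U) + 2 * (4 / L ^ (2 * A + 4)) * U =
            (2 * (M ^ 2 / L ^ (4 * A + 10)) + 2 * (4 / L ^ (2 * A + 4))) * U := by ring
        _ ≤ M ^ 2 / L ^ (2 * A) * U := mul_le_mul_of_nonneg_right hfin hU0
    intro n hn m hm hn5 hm5 hnm hnD
    rcases lt_or_gt_of_ne hnm with hlt | hlt
    · have e : dst n m = m - n := by
        unfold dst
        omega
      rw [e] at hnD ⊢
      exact hmain n hn m hm hn5 hlt hnD
    · have e : dst n m = n - m := by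
        unfold dst
        omega
      rw [e] at hnD ⊢
      have h1 := hmain m hm n hn hm5 hlt hnD
      rw [Us_symm] at h1
      refine le_trans (le_of_eq ?_) h1
      exact sum_congr rfl fun β _ => by rw [B2_symm X n m β]

end Pool.Agent.Q53.LQ.H2U

theorem Pool.Agent.Q145.LQ.t_H2U : Pool.Agent.Q145.LQ.S_H2U := Pool.Agent.Q53.LQ.H2U.main
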