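import Pool.Agent.Q53.LQ.JPOLY

/-!
# Project LQ: the average of the pair singular series along a system of polynomials (HSQ)
-/

set_option autoImplicit false

namespace Pool.Agent.Q53.LQ.HSQ

open Finset Filter
open Pool.Agent.Q145.SZ Pool.Agent.Q145.LQ Pool.Agent.Q261.SZ Pool.Agent.Q53.LQ.JPOLY

theorem one_le_prodR {ι : Type*} (s : Finset ι) (f : ι → ℝ) (h : ∀ i ∈ s, 1 ≤ f i) : 1 ≤ ∏ i ∈ s, f i := by
  classical
  induction s using Finset.induction_on with
  | empty => simp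
  | insert a s ha ih =>
    rw [prod_insert ha]
    exact one_le_mul_of_one_le_of_one_le (h a (mem_insert_self a s))
      (ih fun i hi => h i (mem_insert_of_mem hi))

theorem fac_one_le {p : ℕ} (hp : p.Prime) : 1 ≤ (p : ℝ) / ((p : ℝ) - 1) := by
  have h : (2 : ℝ) ≤ p := by exact_mod_cast hp.two_le
  rw [one_le_div (by linarith)]
  linarith

theorem JP_one_le (z h : ℕ) : 1 ≤ JP z h := by
  unfold JP
  exact one_le_prodR _ _ fun p hp => fac_one_le (Nat.prime_of_mem_primeFactors (mem_filter.1 hp).1)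

theorem SP_nonneg {z H h : ℕ} (hz : 2 ≤ z) : 0 ≤ SP z H h := by
  unfold SP
  refine prod_nonneg fun p hp => ?_
  rw [mem_filter, mem_Ioc] at hp
  have h3 : (3 : ℝ) ≤ p := by exact_mod_cast (show 3 ≤ p by omega)
  split_ifs
  · exact div_nonneg (by linarith) (by linarith)
  · rw [sub_nonneg, div_le_one (by nlinarith)]
    nlinarith

theorem SP_le_JP {z H h : ℕ} (hz : 2 ≤ z) (h0 : h ≠ 0) : SP z H h ≤ JP z h := by
  rw [JP_eq z (max H h) h h0 (le_max_right _ _)]
  have hsub : (Ioc z H).filter Nat.Prime ⊆ (Ioc z (max H h)).filter Nat.Prime := by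
    refine filter_subset_filter _ fun p hp => ?_
    rw [mem_Ioc] at hp ⊢
    exact ⟨hp.1, hp.2.trans (le_max_left _ _)⟩
  rw [← prod_sdiff hsub]
  have h1 : SP z H h ≤ ∏ p ∈ (Ioc z H).filter Nat.Prime, (if p ∣ h then (p : ℝ) / ((p : ℝ) - 1) else 1) := by
    unfold SP
    refine prod_le_prod (fun p hp => ?_) fun p hp => ?_
    · rw [mem_filter, mem_Ioc] at hp
      have h3 : (3 : ℝ) ≤ p := by exact_mod_cast (show 3 ≤ p by omega)
      split_ifs
      · exact div_nonneg (by linarith) (by linarith)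
      · rw [sub_nonneg, div_le_one (by nlinarith)]
        nlinarith
    · split_ifs
      · exact le_rfl
      · have : 0 ≤ 1 / ((p : ℝ) - 1) ^ 2 := by positivity
        linarith
  refine h1.trans (le_mul_of_one_le_left ((SP_nonneg hz).trans h1) ?_)
  refine one_le_prodR _ _ fun p hp => ?_
  have hpp : p.Prime := (mem_filter.1 (mem_sdiff.1 hp).1).2
  split_ifs
  · exact fac_one_le hpp
  · exact le_rfl

theorem JP_mul_le {z a b : ℕ} (ha : a ≠ 0) (hb : b ≠ 0) : JP z (a * b) ≤ JP z a * JP z b := by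
  classical
  unfold JP
  rw [Nat.primeFactors_mul ha hb, filter_union, ← prod_union_inter]
  refine le_mul_of_one_le_right (prod_nonneg fun p hp => ?_) ?_
  · rw [mem_union, mem_filter, mem_filter] at hp
    have hpp : p.Prime := by
      rcases hp with hp | hp
      · exact Nat.prime_of_mem_primeFactors hp.1
      · exact Nat.prime_of_mem_primeFactors hp.1
    linarith [fac_one_le hpp]
  · refine one_le_prodR _ _ fun p hp => ?_
    rw [mem_inter, mem_filter] at hp
    exact fac_one_le (Nat.prime_of_mem_primeFactors hp.1.1)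

theorem amgm (K : ℕ) (hK : K ≠ 0) (y : Fin K → ℝ) (hy : ∀ i, 0 ≤ y i) :
    (∏ i, y i) ^ 2 ≤ (1 / (K : ℝ)) * ∑ i, y i ^ (2 * K) := by
  have hK0 : (K : ℝ) ≠ 0 := by exact_mod_cast hK
  have h := Real.geom_mean_le_arith_mean_weighted univ (fun _ : Fin K => ((K : ℝ))⁻¹)
    (fun i => y i ^ (2 * K)) (fun _ _ => by positivity) (by simp [hK0])
    (fun i _ => by have := hy i; positivity)
  have h1 : ∀ i, (y i ^ (2 * K)) ^ ((K : ℝ)⁻¹) = y i ^ 2 := by
    intro i
    rw [pow_mul]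
    exact Real.pow_rpow_inv_natCast (by positivity) hK
  simp only [h1] at h
  rw [prod_pow] at h
  rw [one_div, mul_sum]
  exact h

/-- divided differences -/
theorem divdiff (q : Polynomial ℤ) (hq : 1 ≤ q.natDegree) (n : ℤ) :
    ∃ R : Polynomial ℤ, R ≠ 0 ∧ R.natDegree ≤ q.natDegree ∧ R.leadingCoeff = q.leadingCoeff ∧
      ∀ m : ℤ, q.eval m - q.eval n = (m - n) * R.eval m := by
  have hroot : (q - Polynomial.C (q.eval n)).IsRoot n := by
    simp [Polynomial.IsRoot.def]
  obtain ⟨R, hR⟩ := Polynomial.dvd_iff_isRoot.2 hroot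
  have hdeg : (q - Polynomial.C (q.eval n)).natDegree = q.natDegree := Polynomial.natDegree_sub_C
  have hlc : (q - Polynomial.C (q.eval n)).leadingCoeff = q.leadingCoeff := by
    unfold Polynomial.leadingCoeff
    rw [hdeg, Polynomial.coeff_sub, Polynomial.coeff_C_of_ne_zero (by omega), sub_zero]
  have hne : q - Polynomial.C (q.eval n) ≠ 0 := by
    intro h
    rw [h, Polynomial.natDegree_zero] at hdeg
    omega
  have hR0 : R ≠ 0 := by
    rintro rfl
    rw [mul_zero] at hR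
    exact hne hR
  refine ⟨R, hR0, ?_, ?_, ?_⟩
  · have h1 := Polynomial.natDegree_mul (Polynomial.X_sub_C_ne_zero n) hR0
    rw [← hR, hdeg] at h1
    omega
  · rw [← hlc, hR, Polynomial.leadingCoeff_mul, Polynomial.leadingCoeff_X_sub_C, one_mul]
  · intro m
    have h1 := congrArg (Polynomial.eval m) hR
    rw [Polynomial.eval_sub, Polynomial.eval_C, Polynomial.eval_mul, Polynomial.eval_sub,
      Polynomial.eval_X, Polynomial.eval_C] at h1
    exact h1

theorem dst_toNat {a b : ℤ} (ha : 0 ≤ a) (hb : 0 ≤ b) : dst a.toNat b.toNat = (b - a).natAbs := by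
  unfold dst
  omega

theorem dst_nat (n m : ℕ) : dst n m = ((m : ℤ) - n).natAbs := by
  unfold dst
  omega

/-- the pointwise inequality -/
theorem point {z K r : ℕ} (hz : 2 ≤ z) (hK : K ≠ 0) (D : ℕ) (hD : D ≠ 0) (H : Fin K → ℕ) (g : Fin K → ℕ)
    (hg : ∀ i, g i ≠ 0) :
    ∏ i, SP z (H i) (D * g i) ^ r ≤ (1 / 2) * JP z D ^ (2 * r * K) +
      (1 / 2) * ((1 / (K : ℝ)) * ∑ i, JP z (g i) ^ (2 * r * K)) := by
  have h1 : ∏ i, SP z (H i) (D * g i) ^ r ≤ JP z D ^ (r * K) * ∏ i, JP z (g i) ^ r := by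
    calc ∏ i, SP z (H i) (D * g i) ^ r ≤ ∏ i, (JP z D * JP z (g i)) ^ r := by
          refine prod_le_prod (fun i _ => pow_nonneg (SP_nonneg hz) r) fun i _ => ?_
          exact pow_le_pow_left₀ (SP_nonneg hz)
            ((SP_le_JP hz (Nat.mul_ne_zero hD (hg i))).trans (JP_mul_le hD (hg i))) r
      _ = _ := by
          simp only [mul_pow]
          rw [prod_mul_distrib, prod_const, card_univ, Fintype.card_fin, ← pow_mul]
  have h2 := amgm K hK (fun i => JP z (g i) ^ r) fun i =>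
    pow_nonneg (zero_le_one.trans (JP_one_le z (g i))) r
  have h3 : ∀ i, (JP z (g i) ^ r) ^ (2 * K) = JP z (g i) ^ (2 * r * K) := by
    intro i
    rw [← pow_mul]
    congr 1
    ring
  simp only [h3] at h2
  have h4 : (JP z D ^ (r * K)) ^ 2 = JP z D ^ (2 * r * K) := by
    rw [← pow_mul]
    congr 1
    ring
  have h5 : JP z D ^ (r * K) * ∏ i, JP z (g i) ^ r ≤
      ((JP z D ^ (r * K)) ^ 2 + (∏ i, JP z (g i) ^ r) ^ 2) / 2 := by
    nlinarith [sq_nonneg (JP z D ^ (r * K) - ∏ i, JP z (g i) ^ r)]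
  rw [h4] at h5
  linarith

open Classical in
/-- the conclusion of `S_HSQ` -/
def HSQc : Prop := ∀ d : ℕ, ∃ (C z₀ : ℕ), 1 ≤ C ∧ ∀ (z Y X K r : ℕ) (H : Fin K → ℕ) (q : Fin K → Polynomial ℤ), z₀ ≤ z → r ≤ 2 → 32 * K ≤ z → Sys d z Y X H q → Y ≤ X →
  (PW z : ℝ) ^ 2 * Real.log ((z : ℝ) * X) ^ (C * (K + 1)) ≤ Y → ∀ c e : ZMod (PW z),
  ∑ n ∈ (Ioc Y (2 * Y)).filter (fun n : ℕ => (n : ZMod (PW z)) = c),
    ∑ m ∈ (Ioc Y (2 * Y)).filter (fun m : ℕ => (m : ZMod (PW z)) = e ∧ okp q n m), ∏ i, SP z (H i) (dst (vq (q i) n) (vq (q i) m)) ^ r ≤ ((Y : ℝ) / PW z) ^ 2 * (1 + C / Real.log z)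

theorem main (hJ : JPOLYc) : HSQc := by
  classical
  intro d
  obtain ⟨C, z₁, hC1, hJ⟩ := hJ d
  have hev : ∀ᶠ z : ℕ in atTop, Real.exp ((z : ℝ) / 2) ≤ PW z ∧ 60 ≤ z ∧ 1 ≤ Real.log z ∧ z₁ ≤ z := by
    have h1 : Tendsto (fun z : ℕ => Real.log z) atTop atTop :=
      Real.tendsto_log_atTop.comp tendsto_natCast_atTop_atTop
    filter_upwards [PW_large, eventually_ge_atTop 60, h1.eventually_ge_atTop 1,
      eventually_ge_atTop z₁] with z a b c d
    exact ⟨a, b, c, d⟩
  obtain ⟨z₀, hz₀⟩ := hev.exists_forall_of_atTop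
  refine ⟨4 * C, z₀, by omega, ?_⟩
  intro z Y X K r H q hz hr hK hS hYX hY c e
  obtain ⟨hW, hz60, hlog1, hz1⟩ := hz₀ z hz
  have hz60r : (60 : ℝ) ≤ z := by exact_mod_cast hz60
  have hW0 : (0 : ℝ) < PW z := by exact_mod_cast Nat.pos_of_ne_zero (NeZero.ne (PW z))
  have hlog0 : 0 < Real.log z := by linarith
  rcases Nat.eq_zero_or_pos Y with hY0 | hY0
  · subst hY0
    simp
  have hX0 : 0 < X := by omega
  have hZ3 : 3 ≤ z * X := le_trans (by omega : 3 ≤ z) (Nat.le_mul_of_pos_right z hX0)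
  have hYZ : Y ≤ z * X := hYX.trans (Nat.le_mul_of_pos_left X (by omega))
  have hLeq : Real.log ((z : ℝ) * X) = Real.log ((z * X : ℕ) : ℝ) := by push_cast; rfl
  set L := Real.log ((z * X : ℕ) : ℝ) with hL
  rw [hLeq] at hY
  have hL1 : 1 ≤ L := by
    rw [hL, Real.le_log_iff_exp_le (by exact_mod_cast (show 0 < z * X by omega))]
    have : (3 : ℝ) ≤ ((z * X : ℕ) : ℝ) := by exact_mod_cast hZ3
    linarith [Real.exp_one_lt_d9]
  have hWY : (PW z : ℝ) ^ 2 ≤ Y :=
    le_trans (le_mul_of_one_le_right (by positivity) (one_le_pow₀ hL1)) hY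
  set T : ℝ := (Y : ℝ) / PW z with hT
  have hY0r : (0 : ℝ) < Y := by exact_mod_cast hY0
  have hT0 : 0 < T := by positivity
  -- the inner sum
  have hJM : ∀ R : Polynomial ℤ, R ≠ 0 → R.natDegree ≤ d → R.leadingCoeff.natAbs ≤ z →
      ∑ m ∈ (Ioc Y (2 * Y)).filter (fun m : ℕ => (m : ZMod (PW z)) = e ∧ R.eval (m : ℤ) ≠ 0 ∧
        (R.eval (m : ℤ)).natAbs ≤ z * X), JP z (R.eval (m : ℤ)).natAbs ^ (2 * r * K) ≤
        T * (1 + C / Real.log z) := by
    intro R hR hRd hRl
    have hM4 : 2 * r * K ≤ 4 * K := Nat.mul_le_mul_right K (by omega)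
    refine hJ z Y (z * X) (2 * r * K) R hz1 (by omega) hZ3 hYZ ?_ hR hRd hRl e
    refine le_trans ?_ hY
    rw [← hL]
    refine mul_le_mul_of_nonneg_left (pow_le_pow_right₀ hL1 ?_) (by positivity)
    have : 2 * r * K + 1 ≤ 4 * (K + 1) := by omega
    calc C * (2 * r * K + 1) ≤ C * (4 * (K + 1)) := Nat.mul_le_mul_left _ this
      _ = 4 * C * (K + 1) := by ring
  have hinner : ∀ n ∈ Ioc Y (2 * Y),
      ∑ m ∈ (Ioc Y (2 * Y)).filter (fun m : ℕ => (m : ZMod (PW z)) = e ∧ okp q n m),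
        ∏ i, SP z (H i) (dst (vq (q i) n) (vq (q i) m)) ^ r ≤ T * (1 + C / Real.log z) := by
    intro n hn
    rcases Nat.eq_zero_or_pos K with hK0 | hK0
    · subst hK0
      have h1 := hJM 1 one_ne_zero (by simp) (by simp; omega)
      refine le_trans ?_ h1
      simp only [univ_eq_empty, prod_empty, mul_zero, pow_zero, sum_const, nsmul_eq_mul, mul_one]
      have h2 : ((Ioc Y (2 * Y)).filter (fun m : ℕ => (m : ZMod (PW z)) = e ∧ okp q n m)).card ≤
        ((Ioc Y (2 * Y)).filter (fun m : ℕ => (m : ZMod (PW z)) = e ∧ (1 : Polynomial ℤ).eval (m : ℤ) ≠ 0 ∧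
        ((1 : Polynomial ℤ).eval (m : ℤ)).natAbs ≤ z * X)).card := by
        refine card_le_card fun m hm => ?_
        rw [mem_filter] at hm ⊢
        refine ⟨hm.1, hm.2.1, by simp, ?_⟩
        rw [Polynomial.eval_one]
        simp
        omega
      exact_mod_cast h2
    have hKne : K ≠ 0 := by omega
    have hd1 : 1 ≤ d := (hS.deg ⟨0, hK0⟩).1.trans (hS.deg ⟨0, hK0⟩).2
    choose R hR0 hRd hRl hRe using fun i => divdiff (q i) (hS.deg i).1 (n : ℤ)
    have hpos : ∀ i, ∀ k ∈ Ioc Y (2 * Y), 0 ≤ (q i).eval (k : ℤ) := by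
      intro i k hk
      have := (hS.val i k hk).1
      have h2 : (0 : ℤ) ≤ H i := Int.natCast_nonneg _
      omega
    have hdst : ∀ i, ∀ m ∈ Ioc Y (2 * Y), dst (vq (q i) n) (vq (q i) m) =
        dst n m * ((R i).eval (m : ℤ)).natAbs := by
      intro i m hm
      unfold vq
      rw [dst_toNat (hpos i n hn) (hpos i m hm), hRe, Int.natAbs_mul, dst_nat]
    -- the two kinds of sums
    have hX1 := hJM (Polynomial.X - Polynomial.C (n : ℤ)) (Polynomial.X_sub_C_ne_zero _)
      (by rw [Polynomial.natDegree_X_sub_C]; exact hd1)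
      (by rw [Polynomial.leadingCoeff_X_sub_C]; simp; omega)
    have hR1 := fun i => hJM (R i) (hR0 i) ((hRd i).trans (hS.deg i).2) (by rw [hRl i]; exact hS.lead i)
    set F := (Ioc Y (2 * Y)).filter (fun m : ℕ => (m : ZMod (PW z)) = e ∧ okp q n m) with hF
    have hFX : F ⊆ (Ioc Y (2 * Y)).filter (fun m : ℕ => (m : ZMod (PW z)) = e ∧
        (Polynomial.X - Polynomial.C (n : ℤ)).eval (m : ℤ) ≠ 0 ∧
        ((Polynomial.X - Polynomial.C (n : ℤ)).eval (m : ℤ)).natAbs ≤ z * X) := by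
      intro m hm
      rw [hF, mem_filter] at hm
      rw [mem_filter]
      refine ⟨hm.1, hm.2.1, ?_, ?_⟩
      · rw [Polynomial.eval_sub, Polynomial.eval_X, Polynomial.eval_C]
        have := hm.2.2.1
        omega
      · rw [Polynomial.eval_sub, Polynomial.eval_X, Polynomial.eval_C]
        rw [mem_Ioc] at hn hm
        omega
    have hFR : ∀ i, F ⊆ (Ioc Y (2 * Y)).filter (fun m : ℕ => (m : ZMod (PW z)) = e ∧
        (R i).eval (m : ℤ) ≠ 0 ∧ ((R i).eval (m : ℤ)).natAbs ≤ z * X) := by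
      intro i m hm
      rw [hF, mem_filter] at hm
      rw [mem_filter]
      have hne : dst (vq (q i) n) (vq (q i) m) ≠ 0 := by
        have := hm.2.2.2 i
        unfold dst
        omega
      rw [hdst i m hm.1] at hne
      have hne2 := (Nat.mul_ne_zero_iff.1 hne)
      refine ⟨hm.1, hm.2.1, Int.natAbs_ne_zero.1 hne2.2, ?_⟩
      have h1 : ((R i).eval (m : ℤ)).natAbs ≤ dst (vq (q i) n) (vq (q i) m) := by
        rw [hdst i m hm.1]
        exact Nat.le_mul_of_pos_left _ (Nat.pos_of_ne_zero hne2.1)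
      refine h1.trans (le_trans ?_ (hS.scale i).2)
      have a1 := hS.val i n hn
      have a2 := hS.val i m hm.1
      unfold vq dst
      omega
    have hpt : ∀ m ∈ F, ∏ i, SP z (H i) (dst (vq (q i) n) (vq (q i) m)) ^ r ≤
        (1 / 2) * JP z ((Polynomial.X - Polynomial.C (n : ℤ)).eval (m : ℤ)).natAbs ^ (2 * r * K) +
        (1 / 2) * ((1 / (K : ℝ)) * ∑ i, JP z ((R i).eval (m : ℤ)).natAbs ^ (2 * r * K)) := by
      intro m hm
      have hm1 := hm
      rw [hF, mem_filter] at hm1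
      have e1 : ((Polynomial.X - Polynomial.C (n : ℤ)).eval (m : ℤ)).natAbs = dst n m := by
        rw [Polynomial.eval_sub, Polynomial.eval_X, Polynomial.eval_C, dst_nat]
      rw [e1]
      have h2 := point (z := z) (K := K) (r := r) (by omega) hKne (dst n m) ?_ H
        (fun i => ((R i).eval (m : ℤ)).natAbs) ?_
      · refine le_trans (le_of_eq ?_) h2
        exact prod_congr rfl fun i _ => by rw [hdst i m hm1.1]
      · have := hm1.2.2.1
        unfold dst
        omega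
      · intro i
        have := hFR i hm
        rw [mem_filter] at this
        exact Int.natAbs_ne_zero.2 this.2.2.1
    refine (sum_le_sum hpt).trans ?_
    rw [sum_add_distrib, ← mul_sum, ← mul_sum, ← mul_sum, sum_comm]
    have hnn : ∀ h : ℕ, 0 ≤ JP z h ^ (2 * r * K) := fun h => pow_nonneg (zero_le_one.trans (JP_one_le z h)) _
    have b1 := (sum_le_sum_of_subset_of_nonneg (f := fun m : ℕ =>
      JP z ((Polynomial.X - Polynomial.C (n : ℤ)).eval (m : ℤ)).natAbs ^ (2 * r * K)) hFX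
      fun m _ _ => hnn _).trans hX1
    have b2 : ∀ i, ∑ m ∈ F, JP z ((R i).eval (m : ℤ)).natAbs ^ (2 * r * K) ≤ T * (1 + C / Real.log z) :=
      fun i => (sum_le_sum_of_subset_of_nonneg (hFR i) fun m _ _ => hnn _).trans (hR1 i)
    have hKr : (0 : ℝ) < K := by exact_mod_cast hK0
    have b3 : (1 / (K : ℝ)) * ∑ i : Fin K, ∑ m ∈ F, JP z ((R i).eval (m : ℤ)).natAbs ^ (2 * r * K) ≤
        T * (1 + C / Real.log z) := by
      have : ∑ i : Fin K, ∑ m ∈ F, JP z ((R i).eval (m : ℤ)).natAbs ^ (2 * r * K) ≤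
          K * (T * (1 + C / Real.log z)) := by
        refine (sum_le_card_nsmul _ _ _ fun i _ => b2 i).trans (le_of_eq ?_)
        rw [card_univ, Fintype.card_fin, nsmul_eq_mul]
      calc (1 / (K : ℝ)) * ∑ i : Fin K, ∑ m ∈ F, JP z ((R i).eval (m : ℤ)).natAbs ^ (2 * r * K) ≤
          (1 / (K : ℝ)) * (K * (T * (1 + C / Real.log z))) := by gcongr
        _ = _ := by field_simp
    linarith
  -- the outer sum
  have hcard : (((Ioc Y (2 * Y)).filter (fun n : ℕ => (n : ZMod (PW z)) = c)).card : ℝ) ≤ T + 1 := by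
    refine cnt_le Y (PW z) (Nat.pos_of_ne_zero (NeZero.ne (PW z))) _ (filter_subset _ _) fun a ha b hb => ?_
    rw [mem_filter] at ha hb
    rw [← ZMod.natCast_eq_natCast_iff, ha.2, hb.2]
  refine (sum_le_card_nsmul _ _ _ fun n hn => hinner n (mem_filter.1 hn).1).trans ?_
  rw [nsmul_eq_mul]
  have hC0 : (0 : ℝ) ≤ C := Nat.cast_nonneg _
  have hB0 : 0 ≤ T * (1 + C / Real.log z) := by positivity
  refine (mul_le_mul_of_nonneg_right hcard hB0).trans ?_
  have h1 : Real.log z ≤ T := by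
    have h2 : (PW z : ℝ) ≤ T := by
      rw [hT, le_div_iff₀ hW0]
      calc (PW z : ℝ) * PW z = (PW z : ℝ) ^ 2 := by ring
        _ ≤ Y := hWY
    have h3 : Real.log z ≤ PW z := by
      have h3 := Real.add_one_le_exp ((z : ℝ) / 2)
      have h4 : Real.log z ≤ (z : ℝ) / 2 + 1 := by
        have h5 : Real.log z = Real.log (z / 2) + Real.log 2 := by
          rw [← Real.log_mul (by positivity) two_ne_zero]
          congr 1
          ring
        have h6 := Real.log_le_sub_one_of_pos (show (0 : ℝ) < z / 2 by linarith)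
        have h7 := Real.log_two_lt_d9
        linarith
      linarith
    linarith
  set u : ℝ := 1 / Real.log z with hu
  have hu0 : 0 < u := by positivity
  have hu1 : u ≤ 1 := by
    rw [hu, div_le_one hlog0]
    exact hlog1
  have hTu : 1 ≤ T * u := by
    rw [hu, mul_one_div, le_div_iff₀ hlog0, one_mul]
    exact h1
  have hC1r : (1 : ℝ) ≤ C := by exact_mod_cast hC1
  have hCu : (C : ℝ) / Real.log z = C * u := by rw [hu]; ring
  have hCu4 : ((4 * C : ℕ) : ℝ) / Real.log z = 4 * C * u := by rw [hu]; push_cast; ring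
  rw [hCu, hCu4]
  calc (T + 1) * (T * (1 + C * u)) ≤ (T + T * u) * (T * (1 + C * u)) := by gcongr
    _ = T ^ 2 * (1 + (1 + C) * u + C * (u * u)) := by ring
    _ ≤ T ^ 2 * (1 + (1 + C) * u + C * (u * 1)) := by gcongr
    _ ≤ T ^ 2 * (1 + 4 * C * u) := by
        refine mul_le_mul_of_nonneg_left ?_ (by positivity)
        have h9 : u ≤ C * u := le_mul_of_one_le_left hu0.le hC1r
        have h10 : 0 ≤ C * u := mul_nonneg hC0 hu0.le
        linarith

end Pool.Agent.Q53.LQ.HSQ
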