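import Pool.Agent.Q145.LQ.Stm2
import Pool.Agent.TH892.CF3

/-!
# Project LQ: character sums over the large primes for almost all discriminants of a progression (CHT)
-/

set_option autoImplicit false

namespace Pool.Agent.Q53.LQ.CHT

open Finset Filter Topology
open Pool.Agent.W468.ConjF Pool.Agent.TH892
open Pool.Agent.H307R2.OP (J PB badCount)
open Pool.Agent.H442R2.EHI (evt_log_pow evt_log_ge)

/-- all but few members of a family of discriminants are good on all blocks -/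
theorem mid_countD (W H Δ i0 I m : ℕ) (D : ℕ → ℤ) (hinj : Function.Injective D)
    (hΔ : ∀ c ∈ Icc 1 H, (D c).natAbs ≤ Δ) (hi0 : 1 ≤ i0) (hm : 1 ≤ m)
    (hΔ3 : Δ ^ 3 ≤ (2 * 2 ^ i0) ^ m) :
    ∃ E : Finset ℕ, E ⊆ Icc 1 H ∧ (#E : ℝ) ≤ 4 * (Nat.sqrt Δ + 1) * ((I : ℝ) * (8 * (2 * m * (I : ℝ) ^ (2 * W)) ^ m)) ∧
      ∀ c ∈ Icc 1 H, c ∉ E → D c ≠ 0 → ∀ i ∈ Icc i0 I,
        |∑ p ∈ Blk i, (jacobiSym (D c) p : ℝ) / p| ≤
          4 * (1 / (i : ℝ) ^ W) + 4 * (Nat.log 2 Δ / 2 ^ i) := by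
  classical
  set T := ({1, -1, 2, -2} : Finset ℤ) ×ˢ range (Nat.sqrt Δ + 1) ×ˢ BadW W Δ i0 I with hT
  set E := (Icc 1 H).filter (fun c : ℕ => ∃ t ∈ T, D c = t.1 * (t.2.1 : ℤ) ^ 2 * t.2.2) with hE
  refine ⟨E, filter_subset _ _, ?_, ?_⟩
  · have h1 : #E ≤ #T := by
      have h2 : #E = #(E.image D) := by
        rw [card_image_of_injective _ hinj]
      rw [h2]
      calc #(E.image D) ≤ #(T.image (fun t : ℤ × ℕ × ℕ => t.1 * (t.2.1 : ℤ) ^ 2 * t.2.2)) := by
            apply card_le_card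
            intro y hy
            rw [mem_image] at hy ⊢
            obtain ⟨c, hc, rfl⟩ := hy
            rw [hE, mem_filter] at hc
            obtain ⟨-, t, ht, h3⟩ := hc
            exact ⟨t, ht, h3.symm⟩
        _ ≤ #T := card_image_le
    have h2 : #T = 4 * (Nat.sqrt Δ + 1) * #(BadW W Δ i0 I) := by
      rw [hT, card_product, card_product, card_range, show #({1, -1, 2, -2} : Finset ℤ) = 4 from rfl]
      ring
    calc (#E : ℝ) ≤ #T := by exact_mod_cast h1
      _ = 4 * (Nat.sqrt Δ + 1) * (#(BadW W Δ i0 I) : ℝ) := by rw [h2]; push_cast; ring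
      _ ≤ _ := mul_le_mul_of_nonneg_left (badW_card W Δ i0 I m hi0 hm hΔ3) (by positivity)
  · intro c hc hcE hD0 i hi
    obtain ⟨δ, s, u, hu, hD, hδ1, hδ2⟩ := kernel _ hD0
    rw [mem_Icc] at hi
    refine block_bound _ Δ (hΔ c hc) δ s u hu hD0 hD hδ2 i (by omega) _ ?_
    by_contra hcon
    push Not at hcon
    obtain ⟨r, hr, hrτ⟩ := hcon
    apply hcE
    rw [hE, mem_filter]
    refine ⟨hc, (u, s, δ), ?_, hD⟩
    have hab : (D c).natAbs = u.natAbs * s ^ 2 * δ := by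
      rw [hD, Int.natAbs_mul, Int.natAbs_mul, Int.natAbs_pow]
      simp
    have hu1 : 1 ≤ u.natAbs := by
      simp only [mem_insert, mem_singleton] at hu
      rcases hu with rfl | rfl | rfl | rfl <;> norm_num
    have hδ0 : 1 ≤ δ := by omega
    have hs0 : s ≠ 0 := by
      rintro rfl
      apply hD0; rw [hD]; simp
    have hle := hΔ c hc
    rw [hab] at hle
    rw [hT, mem_product, mem_product]
    refine ⟨hu, ?_, ?_⟩
    · rw [mem_range, Nat.lt_succ_iff, Nat.le_sqrt']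
      calc s ^ 2 = 1 * s ^ 2 * 1 := by ring
        _ ≤ u.natAbs * s ^ 2 * δ := by gcongr
        _ ≤ Δ := hle
    · show δ ∈ BadW W Δ i0 I
      rw [BadW, mem_filter, mem_range, Nat.lt_succ_iff]
      refine ⟨?_, hδ1, hδ2, i, mem_Icc.2 hi, r, hr, hrτ⟩
      have hs1 : 1 ≤ s ^ 2 := Nat.one_le_pow _ _ (Nat.pos_of_ne_zero hs0)
      calc δ = 1 * 1 * δ := by ring
        _ ≤ u.natAbs * s ^ 2 * δ := by gcongr
        _ ≤ Δ := hle

theorem squares (H Δ : ℕ) (D : ℕ → ℤ) (hinj : Function.Injective D)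
    (hΔ : ∀ c ∈ Icc 1 H, (D c).natAbs ≤ Δ) [DecidablePred fun c : ℕ => IsSquare (D c)] :
    #((Icc 1 H).filter fun c => IsSquare (D c)) ≤ Nat.sqrt Δ + 1 := by
  rw [← card_range (Nat.sqrt Δ + 1)]
  refine card_le_card_of_injOn (fun c => Nat.sqrt (D c).natAbs) ?_ ?_
  · intro c hc
    rw [mem_coe, mem_filter] at hc
    rw [mem_coe, mem_range, Nat.lt_succ_iff]
    exact Nat.sqrt_le_sqrt (hΔ c hc.1)
  · intro c hc c' hc' h
    rw [mem_coe, mem_filter] at hc hc'
    obtain ⟨r, hr⟩ := hc.2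
    obtain ⟨r', hr'⟩ := hc'.2
    have e1 : Nat.sqrt (D c).natAbs = r.natAbs := by
      rw [hr, Int.natAbs_mul, Nat.sqrt_eq]
    have e2 : Nat.sqrt (D c').natAbs = r'.natAbs := by
      rw [hr', Int.natAbs_mul, Nat.sqrt_eq]
    have h1 : r.natAbs = r'.natAbs := by
      rw [← e1, ← e2]
      exact h
    apply hinj
    rw [hr, hr', ← Int.natAbs_mul_self' r, ← Int.natAbs_mul_self' r', h1]

/-- the tail sums converge -/
theorem conv (D : ℤ) (hsq : ¬ IsSquare D) (a : ℕ) :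
    ∃ l : ℝ, Tendsto (fun N : ℕ => SJ D a N) atTop (𝓝 l) := by
  obtain ⟨n₁, hn₁⟩ := tail 1
  apply cauchySeq_tendsto_of_complete
  rw [Metric.cauchySeq_iff']
  intro ε hε
  have h1 : Tendsto (fun z : ℕ => Real.log ((z : ℝ) - 1)) atTop atTop :=
    Real.tendsto_log_atTop.comp (tendsto_atTop_add_const_right _ _ tendsto_natCast_atTop_atTop)
  have h2 : Tendsto (fun z : ℕ => Real.log (z : ℝ)) atTop atTop :=
    Real.tendsto_log_atTop.comp tendsto_natCast_atTop_atTop
  have hev : ∀ᶠ z : ℕ in atTop, 280 / ε + 1 ≤ Real.log ((z : ℝ) - 1) ∧ (4 * D.natAbs : ℝ) ≤ Real.log z ∧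
      n₁ ≤ z ∧ a ≤ z := by
    filter_upwards [h1.eventually_ge_atTop _, h2.eventually_ge_atTop _, eventually_ge_atTop n₁,
      eventually_ge_atTop a] with z b c d e
    exact ⟨b, c, d, e⟩
  obtain ⟨z, hz1, hz2, hz3, hz4⟩ := hev.exists
  refine ⟨z, fun n hn => ?_⟩
  rw [Real.dist_eq, SJ_add D a z n hz4 hn, add_sub_cancel_left]
  refine lt_of_le_of_lt (hn₁ z hz3 D hsq (by rw [pow_one]; exact hz2) n hn) ?_
  have h280 : 0 < 280 / ε := by positivity
  rw [div_lt_iff₀ (by linarith)]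
  have h3 : ε * (280 / ε) = 280 := by field_simp
  nlinarith

theorem main : Pool.Agent.Q145.LQ.S_CHT := by
  classical
  intro V
  obtain ⟨m, hm132⟩ : ∃ m : ℕ, m = 132 := ⟨_, rfl⟩
  set W : ℕ := V + 2 with hW
  have hW1 : 1 ≤ W := by omega
  obtain ⟨n₁, hn₁⟩ := tail (2 * (4400 * W + 1))
  set C2 : ℝ := 16 * (2 * m) ^ m * 2 ^ (2 * W * m) with hC2
  have hC20 : 0 < C2 := by
    have : 0 < m := by omega
    positivity
  have hWr : (0:ℝ) < 4000 * W := by positivity
  set κ : ℝ := 1 / (4000 * W) with hκ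
  have hκ0 : 0 < κ := by positivity
  have hev : ∀ᶠ H : ℕ in atTop, 5000 + 16 * 40 ^ (V + 1) + 10 * C2 + n₁ ≤ Real.log H ∧
      Real.log H ^ (V + 2) ≤ (H:ℝ) ^ κ ∧ 1 ≤ H := by
    filter_upwards [evt_log_ge (5000 + 16 * 40 ^ (V + 1) + 10 * C2 + n₁),
      evt_log_pow (V + 2) κ hκ0, eventually_ge_atTop 1] with H h1 h2 h3
    exact ⟨h1, h2, h3⟩
  obtain ⟨X₀, hX₀⟩ := eventually_atTop.mp hev
  refine ⟨X₀, fun X H u v hX hXH hv hbd => ?_⟩
  obtain ⟨hL, hLV, hX1⟩ := hX₀ X hX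
  set L := Real.log X with hLd
  set t : ℝ := (X:ℝ) ^ κ with ht
  have h40V : (0:ℝ) < 16 * 40 ^ (V + 1) := by positivity
  have hn₁0 : (0:ℝ) ≤ n₁ := Nat.cast_nonneg _
  have hL5 : 5000 ≤ L := by linarith
  have hL0 : 0 < L := by linarith
  have hL1 : 1 ≤ L := by linarith
  have hLp0 : ∀ n : ℕ, 0 < L ^ n := fun n => by positivity
  have hXr : (1:ℝ) ≤ X := by exact_mod_cast hX1
  have hX0' : (0:ℝ) < X := by linarith
  have hLt : L ≤ t := by
    refine le_trans ?_ hLV
    exact le_self_pow₀ hL1 (by omega)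
  have ht1 : 1 ≤ t := hL1.trans hLt
  have ht0 : 0 < t := by linarith
  have htpow : ∀ (n : ℕ) (y : ℝ), (n : ℝ) = 4000 * W * y → t ^ n = (X : ℝ) ^ y := by
    intro n y hy
    rw [ht, ← Real.rpow_natCast, ← Real.rpow_mul hX0'.le, hκ, hy]
    congr 1
    field_simp
  have htX : t ^ (4000 * W) = X := by
    rw [htpow (4000 * W) 1 (by push_cast; ring), Real.rpow_one]
  have ht11 : t ^ (4400 * W) = (X : ℝ) ^ (11 / 10 : ℝ) :=
    htpow (4400 * W) (11 / 10) (by push_cast; ring)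
  have ht9 : t ^ (3600 * W) = (X : ℝ) ^ (9 / 10 : ℝ) :=
    htpow (3600 * W) (9 / 10) (by push_cast; ring)
  -- I
  set I := ⌈t⌉₊ with hI
  have htI : t ≤ I := Nat.le_ceil t
  have hI2t : (I : ℝ) ≤ 2 * t := by
    have := Nat.ceil_lt_add_one (show 0 ≤ t by linarith)
    linarith
  have hI20 : 20 ≤ I := by
    have : (20:ℝ) ≤ I := by linarith
    exact_mod_cast this
  have hn₁I : n₁ ≤ I := by
    have : (n₁:ℝ) ≤ I := by linarith
    exact_mod_cast this
  -- i0
  set i0 := Nat.log 2 X / 40 with hi0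
  have hlog1 := natlog_le X hX1
  have hlog2 := le_natlog X hX1
  rw [← hLd] at hlog1 hlog2
  have hdm : Nat.log 2 X < 40 * (i0 + 1) := by
    have := Nat.div_add_mod (Nat.log 2 X) 40
    have := Nat.mod_lt (Nat.log 2 X) (show 0 < 40 by norm_num)
    omega
  have hi0L : L / 40 ≤ (i0:ℝ) - 1 := by
    have h1 : (Nat.log 2 X : ℝ) + 1 ≤ 40 * (i0 + 1) := by exact_mod_cast hdm
    linarith
  have hi0le : (i0:ℝ) ≤ L := by
    have h1 : ((Nat.log 2 X / 40 : ℕ) : ℝ) ≤ (Nat.log 2 X : ℝ) / 40 := by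
      exact_mod_cast Nat.cast_div_le
    rw [hi0]
    linarith [(Nat.cast_nonneg (Nat.log 2 X) : (0:ℝ) ≤ _)]
  have hi02 : 2 ≤ i0 := by
    have : (2:ℝ) ≤ i0 := by linarith
    exact_mod_cast this
  have hi0I : i0 ≤ I := by
    have : (i0:ℝ) ≤ I := by linarith
    exact_mod_cast this
  have hp2 : X ≤ (2 * 2 ^ i0) ^ 40 := by
    have h1 : X < 2 ^ (Nat.log 2 X + 1) := Nat.lt_pow_succ_log_self (by norm_num) X
    calc X ≤ 2 ^ (Nat.log 2 X + 1) := h1.le
      _ ≤ 2 ^ (40 * (i0 + 1)) := Nat.pow_le_pow_right (by norm_num) (by omega)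
      _ = (2 * 2 ^ i0) ^ 40 := by rw [← pow_succ', ← pow_mul]; ring_nf
  have h2i : t ^ (100 * W) ≤ 2 * 2 ^ i0 := by
    have h1 : (t ^ (100 * W)) ^ 40 ≤ (2 * (2:ℝ) ^ i0) ^ 40 := by
      calc (t ^ (100 * W)) ^ 40 = t ^ (4000 * W) := by rw [← pow_mul]; ring_nf
        _ = X := htX
        _ ≤ (2 * (2:ℝ) ^ i0) ^ 40 := by exact_mod_cast hp2
    exact (pow_le_pow_iff_left₀ (by positivity) (by positivity) (by norm_num)).1 h1
  have ht2i : t ^ 2 ≤ 2 * 2 ^ i0 := (pow_le_pow_right₀ ht1 (by omega)).trans h2i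
  -- Δ
  set Δ := ⌊(X : ℝ) ^ (11 / 10 : ℝ)⌋₊ with hΔ
  have hΔt : (Δ : ℝ) ≤ t ^ (4400 * W) := by
    rw [ht11]
    exact Nat.floor_le (by positivity)
  have hX11 : 1 ≤ (X : ℝ) ^ (11 / 10 : ℝ) := Real.one_le_rpow hXr (by norm_num)
  have hΔ1 : 1 ≤ Δ := Nat.le_floor (by exact_mod_cast hX11)
  have hΔ3 : Δ ^ 3 ≤ (2 * 2 ^ i0) ^ m := by
    rw [hm132]
    have h1 : ((Δ ^ 3) ^ 10 : ℕ) ≤ ((2 * 2 ^ i0) ^ 132) ^ 10 := by
      have h2 : (Δ ^ 3) ^ 10 ≤ X ^ 33 := by
        have h3 : ((Δ : ℝ) ^ 3) ^ 10 ≤ (X : ℝ) ^ 33 := by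
          calc ((Δ : ℝ) ^ 3) ^ 10 ≤ ((t ^ (4400 * W)) ^ 3) ^ 10 := by gcongr
            _ = (t ^ (4000 * W)) ^ 33 := by
              rw [← pow_mul, ← pow_mul, ← pow_mul,
                show 4400 * W * (3 * 10) = 4000 * W * 33 by ring]
            _ = (X : ℝ) ^ 33 := by rw [htX]
        exact_mod_cast h3
      calc (Δ ^ 3) ^ 10 ≤ X ^ 33 := h2
        _ ≤ ((2 * 2 ^ i0) ^ 40) ^ 33 := Nat.pow_le_pow_left hp2 33
        _ = ((2 * 2 ^ i0) ^ 132) ^ 10 := by rw [← pow_mul, ← pow_mul]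
    exact (Nat.pow_le_pow_iff_left (by norm_num)).1 h1
  have hsqrt : (Nat.sqrt Δ : ℝ) ≤ t ^ (2200 * W) := by
    have h1 : ((Nat.sqrt Δ : ℕ) : ℝ) ^ 2 ≤ (t ^ (2200 * W)) ^ 2 := by
      rw [← pow_mul, show 2200 * W * 2 = 4400 * W by ring]
      refine le_trans ?_ hΔt
      exact_mod_cast Nat.sqrt_le' Δ
    exact (pow_le_pow_iff_left₀ (by positivity) (by positivity) (by norm_num)).1 h1
  -- the family
  set D : ℕ → ℤ := fun s => u + v * (s : ℤ) with hD
  have hinj : Function.Injective D := by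
    intro a b hab
    rw [hD] at hab
    have h1 : v * (a : ℤ) = v * (b : ℤ) := by
      simp only at hab
      linarith
    exact_mod_cast mul_left_cancel₀ hv h1
  have hDΔ : ∀ c ∈ Icc 1 H, (D c).natAbs ≤ Δ := by
    intro c hc
    apply Nat.le_floor
    have h1 := hbd c hc
    refine le_trans (le_of_eq ?_) h1
    rw [hD]
    show (((u + v * (c : ℤ)).natAbs : ℕ) : ℝ) = _
    rw [Nat.cast_natAbs]
  obtain ⟨E, hEs, hEc, hE⟩ := mid_countD W H Δ i0 I m D hinj hDΔ (by omega) (by omega) hΔ3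
  set S := (Icc 1 H).filter fun c => IsSquare (D c) with hS
  have hSc : #S ≤ Nat.sqrt Δ + 1 := squares H Δ D hinj hDΔ
  have hIt : (I : ℝ) * (8 * (2 * (m : ℝ) * (I : ℝ) ^ (2 * W)) ^ m) ≤ C2 * t ^ (265 * W) := by
    calc (I : ℝ) * (8 * (2 * (m : ℝ) * (I : ℝ) ^ (2 * W)) ^ m)
        ≤ (2 * t) * (8 * (2 * (m : ℝ) * (2 * t) ^ (2 * W)) ^ m) := by gcongr
      _ = C2 * (t * t ^ (2 * W * m)) := by
          have h1 : ((2 * t) ^ (2 * W)) ^ m = 2 ^ (2 * W * m) * t ^ (2 * W * m) := by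
            rw [← pow_mul, mul_pow]
          rw [mul_pow, h1, hC2]
          ring
      _ ≤ C2 * (t ^ W * t ^ (2 * W * m)) := by
          have : t ≤ t ^ W := le_self_pow₀ ht1 (by omega)
          gcongr
      _ = C2 * t ^ (265 * W) := by
          rw [← pow_add, hm132]
          congr 2
          ring
  have hCt : 10 * C2 ≤ t := by linarith
  have hC16 : 16 ≤ C2 := by
    rw [hC2]
    have h1 : (1 : ℝ) ≤ (2 * m) ^ m := by
      apply one_le_pow₀
      have : (1 : ℝ) ≤ m := by exact_mod_cast (by omega : 1 ≤ m)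
      linarith
    have h2 : (1 : ℝ) ≤ 2 ^ (2 * W * m) := one_le_pow₀ (by norm_num)
    calc (16 : ℝ) = 16 * 1 * 1 := by ring
      _ ≤ 16 * (2 * m) ^ m * 2 ^ (2 * W * m) := by gcongr
  refine ⟨E ∪ S, union_subset hEs (filter_subset _ _), ?_, ?_⟩
  · have h1 : (#(E ∪ S) : ℝ) ≤ #E + #S := by exact_mod_cast card_union_le _ _
    have h2 : (#S : ℝ) ≤ Nat.sqrt Δ + 1 := by exact_mod_cast hSc
    have h3 : 1 ≤ t ^ (2200 * W) := one_le_pow₀ ht1
    have h4 : 1 ≤ t ^ (265 * W) := one_le_pow₀ ht1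
    have h5 : (Nat.sqrt Δ : ℝ) + 1 ≤ 2 * t ^ (2200 * W) := by linarith
    rw [← ht9]
    calc (#(E ∪ S) : ℝ) ≤ 4 * (Nat.sqrt Δ + 1) * ((I : ℝ) * (8 * (2 * m * (I : ℝ) ^ (2 * W)) ^ m)) +
          (Nat.sqrt Δ + 1) := h1.trans (add_le_add hEc h2)
      _ ≤ 4 * (2 * t ^ (2200 * W)) * (C2 * t ^ (265 * W)) + 2 * t ^ (2200 * W) := by gcongr
      _ ≤ 4 * (2 * t ^ (2200 * W)) * (C2 * t ^ (265 * W)) + t ^ (2200 * W) * (C2 * t ^ (265 * W)) := by
          have h6 : 2 ≤ C2 * t ^ (265 * W) := by nlinarith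
          have h7 : 2 * t ^ (2200 * W) ≤ (C2 * t ^ (265 * W)) * t ^ (2200 * W) :=
            mul_le_mul_of_nonneg_right h6 (by positivity)
          linarith
      _ = 9 * C2 * (t ^ (2200 * W) * t ^ (265 * W)) := by ring
      _ ≤ t * (t ^ (2200 * W) * t ^ (265 * W)) := by
          apply mul_le_mul_of_nonneg_right _ (by positivity)
          linarith
      _ = t ^ (1 + (2200 * W + 265 * W)) := by rw [pow_add, pow_add, pow_one]
      _ ≤ t ^ (3600 * W) := pow_le_pow_right₀ ht1 (by omega)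
  · intro s hs hsB
    rw [mem_union, not_or] at hsB
    have hsq : ¬ IsSquare (D s) := fun h => hsB.2 (mem_filter.2 ⟨hs, h⟩)
    have hD0 : D s ≠ 0 := by
      intro h
      apply hsq
      rw [h]
      exact ⟨0, by simp⟩
    refine ⟨hsq, ?_⟩
    obtain ⟨l, hl⟩ := conv (D s) hsq (2 ^ i0)
    refine ⟨l, hl, ?_⟩
    -- logs
    have hlogΔ : (Nat.log 2 Δ : ℝ) ≤ 2 * L := by
      have h1 := natlog_le Δ hΔ1
      have h2 : Real.log (Δ : ℝ) ≤ 11 / 10 * L := by
        have h3 : (Δ : ℝ) ≤ (X : ℝ) ^ (11 / 10 : ℝ) := Nat.floor_le (by positivity)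
        have h4 := Real.log_le_log (by exact_mod_cast hΔ1) h3
        rwa [Real.log_rpow hX0'] at h4
      linarith
    have hI0 : (i0:ℝ) - 1 > 0 := by linarith
    have b2 : |SJ (D s) (2 ^ i0) (2 ^ (I + 1))| ≤ 1 / (2 * L ^ V) := by
      refine (mid_sumW (D s) V i0 I (Nat.log 2 Δ) (by positivity) hi02 hi0I
        (hE s hs hsB.1 hD0)).trans ?_
      have h1 : 4 / ((i0:ℝ) - 1) ^ (V + 1) ≤ 1 / (4 * L ^ V) := by
        calc 4 / ((i0:ℝ) - 1) ^ (V + 1) ≤ 4 / (L / 40) ^ (V + 1) := by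
              apply div_le_div_of_nonneg_left (by norm_num) (by positivity)
              exact pow_le_pow_left₀ (by positivity) hi0L _
          _ = 1 / (4 * L ^ V) * (16 * 40 ^ (V + 1) / L) := by
              rw [div_pow, pow_succ L]
              field_simp
              norm_num
          _ ≤ 1 / (4 * L ^ V) * 1 := by
              apply mul_le_mul_of_nonneg_left _ (by positivity)
              rw [div_le_one hL0]
              linarith
          _ = _ := mul_one _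
      have h2 : 8 * (Nat.log 2 Δ : ℝ) / 2 ^ i0 ≤ 1 / (4 * L ^ V) := by
        calc 8 * (Nat.log 2 Δ : ℝ) / 2 ^ i0 ≤ 8 * (2 * L) / (t ^ 2 / 2) := by
              apply div_le_div₀ (by positivity) (by linarith) (by positivity) (by linarith)
          _ ≤ 1 / (4 * L ^ V) := by
              rw [div_le_div_iff₀ (by positivity) (by positivity)]
              have h3 : L ^ (V + 2) * 1 ≤ t * t := mul_le_mul hLV ht1 (by norm_num) ht0.le
              have h4 : 8 * (2 * L) * (4 * L ^ V) = 64 * L ^ (V + 1) := by ring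
              have h5 : L ^ (V + 2) = L * L ^ (V + 1) := by ring
              have h6 : 5000 * L ^ (V + 1) ≤ L * L ^ (V + 1) :=
                mul_le_mul_of_nonneg_right hL5 (hLp0 _).le
              rw [h4, one_mul, sq]
              have := hLp0 (V + 1)
              linarith
      have h3 : 1 / (2 * L ^ V) = 1 / (4 * L ^ V) + 1 / (4 * L ^ V) := by
        field_simp
        norm_num
      rw [h3]
      linarith
    have hII : 2 ^ i0 ≤ 2 ^ (I + 1) := Nat.pow_le_pow_right (by norm_num) (by omega)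
    have hIlt : I + 1 < 2 ^ (I + 1) := Nat.lt_two_pow_self
    have hlim : ∀ᶠ N : ℕ in atTop, |SJ (D s) (2 ^ i0) N| ≤ 1 / L ^ V := by
      filter_upwards [eventually_ge_atTop (2 ^ (I + 1))] with N hN
      have b3 : |SJ (D s) (2 ^ (I + 1)) N| ≤ 1 / (4 * L ^ V) := by
        refine (hn₁ (2 ^ (I + 1)) (by omega) (D s) hsq ?_ N hN).trans ?_
        · have h1 : (4 * (D s).natAbs : ℝ) ≤ 4 * t ^ (4400 * W) := by
            have h2 : ((D s).natAbs : ℝ) ≤ Δ := by exact_mod_cast hDΔ s hs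
            linarith
          have h3 : Real.log ((2 ^ (I + 1) : ℕ) : ℝ) = ((I + 1 : ℕ) : ℝ) * Real.log 2 := by
            push_cast
            rw [Real.log_pow]
            push_cast
            ring
          rw [h3]
          refine h1.trans ?_
          set y : ℝ := ((I + 1 : ℕ) : ℝ) with hy
          have hy20 : 20 ≤ y := by
            rw [hy]; exact_mod_cast (by omega : 20 ≤ I + 1)
          have hyt : t ≤ y := by rw [hy]; push_cast; linarith
          have h8 : (0.6 : ℝ) < Real.log 2 := by have := Real.log_two_gt_d9; linarith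
          have h4 : y ≤ (y * Real.log 2) ^ 2 := by
            have h5 : y * 0.6 ≤ y * Real.log 2 := mul_le_mul_of_nonneg_left h8.le (by linarith)
            have h6 : (y * 0.6) ^ 2 ≤ (y * Real.log 2) ^ 2 := pow_le_pow_left₀ (by positivity) h5 2
            have h7 : 20 * y ≤ y * y := mul_le_mul_of_nonneg_right hy20 (by linarith)
            have h9 : (y * 0.6) ^ 2 = 0.36 * (y * y) := by ring
            linarith
          calc 4 * t ^ (4400 * W) ≤ y * y ^ (4400 * W) := by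
                gcongr
                linarith
            _ = y ^ (4400 * W + 1) := by ring
            _ ≤ ((y * Real.log 2) ^ 2) ^ (4400 * W + 1) := pow_le_pow_left₀ (by linarith) h4 _
            _ = (y * Real.log 2) ^ (2 * (4400 * W + 1)) := by rw [← pow_mul]
        · have h1 : t / 2 ≤ Real.log (((2 ^ (I + 1) : ℕ) : ℝ) - 1) := by
            have h2 : (2:ℝ) ^ I ≤ ((2 ^ (I + 1) : ℕ) : ℝ) - 1 := by
              push_cast
              rw [pow_succ]
              have : (1:ℝ) ≤ 2 ^ I := one_le_pow₀ (by norm_num)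
              linarith
            have h3 := Real.log_le_log (by positivity) h2
            rw [Real.log_pow] at h3
            have h8 : (0.6 : ℝ) < Real.log 2 := by have := Real.log_two_gt_d9; linarith
            have h9 : t * 0.6 ≤ I * Real.log 2 := by
              apply mul_le_mul htI h8.le (by norm_num) (by positivity)
            linarith
          calc 140 / Real.log (((2 ^ (I + 1) : ℕ) : ℝ) - 1) ≤ 140 / (t / 2) := by
                apply div_le_div_of_nonneg_left (by norm_num) (by positivity) h1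
            _ ≤ 1 / (4 * L ^ V) := by
                rw [div_le_div_iff₀ (by positivity) (by positivity)]
                have h3 : L ^ (V + 1) ≤ t := (pow_le_pow_right₀ hL1 (by omega)).trans hLV
                have h4 : 5000 * L ^ V ≤ L ^ (V + 1) := by
                  rw [pow_succ, mul_comm (L ^ V) L]
                  exact mul_le_mul_of_nonneg_right hL5 (hLp0 V).le
                linarith
      rw [SJ_add (D s) (2 ^ i0) (2 ^ (I + 1)) N hII hN]
      refine (abs_add_le _ _).trans ((add_le_add b2 b3).trans ?_)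
      have e1 : 1 / (2 * L ^ V) = 2 * (1 / (4 * L ^ V)) := by field_simp; norm_num
      have e2 : 1 / L ^ V = 4 * (1 / (4 * L ^ V)) := by field_simp
      have e5 : 0 < 1 / (4 * L ^ V) := by positivity
      rw [e1, e2]
      linarith
    exact le_of_tendsto hl.abs hlim

end Pool.Agent.Q53.LQ.CHT

theorem Pool.Agent.Q145.LQ.t_CHT : Pool.Agent.Q145.LQ.S_CHT := Pool.Agent.Q53.LQ.CHT.main
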