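import Pool.Agent.Q145.LQ.Stm
import Pool.Agent.Q261.SZ.HS

/-!
# Project LQ: moments of `JP` along a polynomial in a residue class (JPOLY)

The statement `S_JPOLY` of `Pool/Agent/Q145/LQ/Stm.lean` with the additional hypothesis `3 ≤ Z`
(without it the statement fails for `Y = Z = 1`, where `log Z = 0`).
-/

set_option autoImplicit false

namespace Pool.Agent.Q53.LQ.JPOLY

open Finset Filter
open Pool.Agent.Q145.SZ Pool.Agent.Q145.LQ Pool.Agent.Q261.SZ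

/-- `(p/(p-1))^M - 1` -/
noncomputable def gj (M p : ℕ) : ℝ := ((p : ℝ) / ((p : ℝ) - 1)) ^ M - 1

theorem gj_nonneg {M p : ℕ} (hp : 2 ≤ p) : 0 ≤ gj M p := by
  have h : (2 : ℝ) ≤ p := by exact_mod_cast hp
  unfold gj
  have h1 : 1 ≤ (p : ℝ) / ((p : ℝ) - 1) := by
    rw [one_le_div (by linarith)]
    linarith
  linarith [one_le_pow₀ h1 (n := M)]

theorem gj_le {M p : ℕ} (hp : 2 ≤ p) (hM : 8 * M ≤ p) : gj M p ≤ 4 * M / p := by
  have h2 : (2 : ℝ) ≤ p := by exact_mod_cast hp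
  have hMr : 8 * (M : ℝ) ≤ p := by exact_mod_cast hM
  have hM0 : (0 : ℝ) ≤ M := Nat.cast_nonneg _
  have hp1 : 0 < (p : ℝ) - 1 := by linarith
  have hx0 : 0 ≤ (M : ℝ) / ((p : ℝ) - 1) := by positivity
  have hx1 : (M : ℝ) / ((p : ℝ) - 1) ≤ 2 * M / p := by
    rw [div_le_div_iff₀ hp1 (by linarith)]
    nlinarith
  have hx2 : 2 * (M : ℝ) / p ≤ 1 := by
    rw [div_le_one (by linarith)]
    linarith
  have h1 : (p : ℝ) / ((p : ℝ) - 1) ≤ Real.exp (1 / ((p : ℝ) - 1)) := by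
    have := Real.add_one_le_exp (1 / ((p : ℝ) - 1))
    have e : (p : ℝ) / ((p : ℝ) - 1) = 1 / ((p : ℝ) - 1) + 1 := by field_simp; ring
    rw [e]
    exact this
  have h3 : ((p : ℝ) / ((p : ℝ) - 1)) ^ M ≤ Real.exp (M / ((p : ℝ) - 1)) := by
    have h3 : 0 ≤ (p : ℝ) / ((p : ℝ) - 1) := by positivity
    refine (pow_le_pow_left₀ h3 h1 M).trans (le_of_eq ?_)
    rw [← Real.exp_nat_mul]
    congr 1
    ring
  have h4 := exp_quad hx0 (hx1.trans hx2)
  unfold gj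
  have h5 : ((M : ℝ) / ((p : ℝ) - 1)) ^ 2 ≤ (M : ℝ) / ((p : ℝ) - 1) := by nlinarith [hx1.trans hx2]
  have h6 : 4 * (M : ℝ) / p = 2 * (2 * M / p) := by ring
  rw [h6]
  linarith

theorem JP_eq (z Z h : ℕ) (h0 : h ≠ 0) (hZ : h ≤ Z) :
    JP z h = ∏ p ∈ (Ioc z Z).filter Nat.Prime, (if p ∣ h then (p : ℝ) / ((p : ℝ) - 1) else 1) := by
  unfold JP
  rw [← prod_filter]
  refine prod_congr ?_ fun _ _ => rfl
  ext p
  simp only [mem_filter, Nat.mem_primeFactors, mem_Ioc]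
  constructor
  · rintro ⟨⟨hp, hd, -⟩, hz⟩
    exact ⟨⟨⟨hz, (Nat.le_of_dvd (Nat.pos_of_ne_zero h0) hd).trans hZ⟩, hp⟩, hd⟩
  · rintro ⟨⟨⟨hz, -⟩, hp⟩, hd⟩
    exact ⟨⟨hp, hd, h0⟩, hz⟩

theorem JP_pow (z Z M h : ℕ) (h0 : h ≠ 0) (hZ : h ≤ Z) :
    JP z h ^ M = ∑ E ∈ ((Ioc z Z).filter Nat.Prime).powerset,
        if (∏ p ∈ E, p) ∣ h then ∏ p ∈ E, gj M p else 0 := by
  rw [JP_eq z Z h h0 hZ, ← prod_pow]
  have h1 : ∏ p ∈ (Ioc z Z).filter Nat.Prime,
      (if p ∣ h then (p : ℝ) / ((p : ℝ) - 1) else 1) ^ M =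
        ∏ p ∈ (Ioc z Z).filter Nat.Prime, (1 + if p ∣ h then gj M p else 0) := by
    refine prod_congr rfl fun p hp => ?_
    split_ifs with hd
    · unfold gj
      ring
    · simp
  rw [h1, prod_one_add]
  refine sum_congr rfl fun E hE => ?_
  rw [mem_powerset] at hE
  have hEp : ∀ p ∈ E, p.Prime := fun p hp => (mem_filter.1 (hE hp)).2
  split_ifs with hd
  · rw [dvd_prod_iff E hEp] at hd
    exact prod_congr rfl fun p hp => if_pos (hd p hp)
  · rw [dvd_prod_iff E hEp] at hd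
    push Not at hd
    obtain ⟨p, hp, hpd⟩ := hd
    exact prod_eq_zero hp (if_neg hpd)

/-- roots modulo a prime -/
theorem roots_le (p d : ℕ) (hp : p.Prime) (R : Polynomial ℤ) (hd : R.natDegree ≤ d)
    (hl : ¬ (p : ℤ) ∣ R.leadingCoeff) :
    ((range p).filter fun r : ℕ => (p : ℤ) ∣ R.eval (r : ℤ)).card ≤ d := by
  classical
  have : Fact p.Prime := ⟨hp⟩
  set f : Polynomial (ZMod p) := R.map (Int.castRingHom (ZMod p)) with hf
  have hf0 : f ≠ 0 := by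
    intro h
    apply hl
    have h1 : f.coeff R.natDegree = 0 := by rw [h]; simp
    rw [hf, Polynomial.coeff_map] at h1
    rw [← ZMod.intCast_zmod_eq_zero_iff_dvd]
    exact h1
  have h1 : ((range p).filter fun r : ℕ => (p : ℤ) ∣ R.eval (r : ℤ)).card ≤ f.roots.toFinset.card := by
    refine card_le_card_of_injOn (fun r : ℕ => (r : ZMod p)) ?_ ?_
    · intro r hr
      rw [mem_coe, mem_filter] at hr
      rw [mem_coe, Multiset.mem_toFinset, Polynomial.mem_roots hf0, Polynomial.IsRoot.def, hf]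
      have h2 := (ZMod.intCast_zmod_eq_zero_iff_dvd _ p).2 hr.2
      have h3 := Polynomial.eval_intCast_map (Int.castRingHom (ZMod p)) R (r : ℤ)
      rw [Int.cast_natCast] at h3
      rw [h3]
      exact h2
    · intro a ha b hb hab
      rw [mem_coe, mem_filter, mem_range] at ha hb
      have h2 := (ZMod.natCast_eq_natCast_iff a b p).1 hab
      rw [Nat.ModEq, Nat.mod_eq_of_lt ha.1, Nat.mod_eq_of_lt hb.1] at h2
      exact h2
  refine h1.trans ((Multiset.toFinset_card_le _).trans ((Polynomial.card_roots' f).trans ?_))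
  exact (Polynomial.natDegree_map_le).trans hd

theorem eval_dvd (p m : ℕ) (R : Polynomial ℤ) :
    (p : ℤ) ∣ R.eval (m : ℤ) ↔ (p : ℤ) ∣ R.eval ((m % p : ℕ) : ℤ) := by
  have h1 : (m : ℤ) - ((m % p : ℕ) : ℤ) ∣ R.eval (m : ℤ) - R.eval ((m % p : ℕ) : ℤ) :=
    Polynomial.sub_dvd_eval_sub _ _ _
  have h2 : (p : ℤ) ∣ (m : ℤ) - ((m % p : ℕ) : ℤ) := by
    rw [Int.natCast_mod]
    exact Int.dvd_self_sub_emod
  have h3 := h2.trans h1
  constructor
  · intro h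
    have := dvd_sub h h3
    simpa using this
  · intro h
    have := dvd_add h3 h
    simpa using this

/-- the number of `m ≡ c` in `(Y, 2Y]` with `R(m)` divisible by all `p ∈ E` -/
theorem cnt_roots {W : ℕ} [NeZero W] (Y d : ℕ) (R : Polynomial ℤ) (hd : R.natDegree ≤ d)
    (E : Finset ℕ) (hE : ∀ p ∈ E, p.Prime ∧ ¬ (p : ℤ) ∣ R.leadingCoeff ∧ W.Coprime p)
    (c : ZMod W) (S : Finset ℕ) (hS : S ⊆ Ioc Y (2 * Y)) (hc : ∀ m ∈ S, (m : ZMod W) = c)
    (hr : ∀ m ∈ S, ∀ p ∈ E, (p : ℤ) ∣ R.eval (m : ℤ)) :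
    (S.card : ℝ) ≤ d ^ E.card * ((Y : ℝ) / (W * ∏ p ∈ E, p : ℕ) + 1) := by
  classical
  set e := ∏ p ∈ E, p with he
  have he0 : 0 < e := prod_pos fun p hp => (hE p hp).1.pos
  have hWe : W.Coprime e := Nat.Coprime.prod_right fun p hp => (hE p hp).2.2
  have hW0 : 0 < W := Nat.pos_of_ne_zero (NeZero.ne W)
  set T : Finset ((p : ℕ) → p ∈ E → ℕ) :=
    E.pi fun p => (range p).filter fun r : ℕ => (p : ℤ) ∣ R.eval (r : ℤ) with hT
  set f : ℕ → ((p : ℕ) → p ∈ E → ℕ) := fun m p _ => m % p with hf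
  have hmap : ∀ m ∈ S, f m ∈ T := by
    intro m hm
    rw [hT, Finset.mem_pi]
    intro p hp
    rw [mem_filter, mem_range]
    exact ⟨Nat.mod_lt _ (hE p hp).1.pos, (eval_dvd p m R).1 (hr m hm p hp)⟩
  have h1 : (S.card : ℝ) = ∑ t ∈ T, ((S.filter fun m => f m = t).card : ℝ) := by
    rw [card_eq_sum_card_fiberwise hmap]
    push_cast
    rfl
  have h2 : ∀ t ∈ T, ((S.filter fun m => f m = t).card : ℝ) ≤ (Y : ℝ) / (W * e : ℕ) + 1 := by
    intro t _
    refine cnt_le Y (W * e) (Nat.mul_pos hW0 he0) _ ((filter_subset _ _).trans hS) fun a ha b hb => ?_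
    rw [mem_filter] at ha hb
    rw [← Nat.modEq_and_modEq_iff_modEq_mul hWe]
    refine ⟨?_, ?_⟩
    · rw [← ZMod.natCast_eq_natCast_iff, hc a ha.1, hc b hb.1]
    · have hab : f a = f b := ha.2.trans hb.2.symm
      have h3 : ∀ p ∈ E, a ≡ b [MOD p] := fun p hp => congrFun (congrFun hab p) hp
      have h4 : ∀ p ∈ E, (p : ℤ) ∣ (b : ℤ) - a := fun p hp => (Nat.modEq_iff_dvd).1 (h3 p hp)
      rw [Nat.modEq_iff_dvd]
      have h5 : e ∣ ((b : ℤ) - a).natAbs := by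
        rw [he, dvd_prod_iff E fun p hp => (hE p hp).1]
        intro p hp
        exact Int.natCast_dvd.1 (h4 p hp)
      exact Int.natCast_dvd.2 h5
  rw [h1]
  refine (sum_le_card_nsmul _ _ _ h2).trans ?_
  rw [nsmul_eq_mul]
  refine mul_le_mul_of_nonneg_right ?_ (by positivity)
  have h3 : T.card ≤ d ^ E.card := by
    rw [hT, Finset.card_pi, ← prod_const]
    exact prod_le_prod' fun p hp => roots_le p d (hE p hp).1 R hd (hE p hp).2.1
  exact_mod_cast h3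

/-- the main inequality before the estimates -/
theorem main_sum (z Y Z M d : ℕ) (hz : 2 ≤ z) (R : Polynomial ℤ) (hR : R ≠ 0) (hd : R.natDegree ≤ d)
    (hl : R.leadingCoeff.natAbs ≤ z) (c : ZMod (PW z)) :
    ∑ m ∈ (Ioc Y (2 * Y)).filter (fun m : ℕ => (m : ZMod (PW z)) = c ∧ R.eval (m : ℤ) ≠ 0 ∧
      (R.eval (m : ℤ)).natAbs ≤ Z), JP z (R.eval (m : ℤ)).natAbs ^ M ≤
      (Y : ℝ) / PW z * ∏ p ∈ (Ioc z Z).filter Nat.Prime, (1 + d * gj M p / p) +
          ∏ p ∈ (Ioc z Z).filter Nat.Prime, (1 + d * gj M p) := by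
  classical
  set P := (Ioc z Z).filter Nat.Prime with hP
  have hPm : ∀ p ∈ P, p.Prime ∧ z < p := by
    intro p hp
    rw [hP, mem_filter, mem_Ioc] at hp
    exact ⟨hp.2, hp.1.1⟩
  have hg0 : ∀ E ∈ P.powerset, 0 ≤ ∏ p ∈ E, gj M p := fun E hE =>
    prod_nonneg fun p hp => gj_nonneg (hPm p (mem_powerset.1 hE hp)).1.two_le
  set S := (Ioc Y (2 * Y)).filter (fun m : ℕ => (m : ZMod (PW z)) = c ∧ R.eval (m : ℤ) ≠ 0 ∧
      (R.eval (m : ℤ)).natAbs ≤ Z) with hS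
  have h1 : ∑ m ∈ S, JP z (R.eval (m : ℤ)).natAbs ^ M =
      ∑ m ∈ S, ∑ E ∈ P.powerset, if (∏ p ∈ E, p) ∣ (R.eval (m : ℤ)).natAbs then ∏ p ∈ E, gj M p else 0 := by
    refine sum_congr rfl fun m hm => ?_
    rw [hS, mem_filter] at hm
    exact JP_pow z Z M _ (Int.natAbs_ne_zero.2 hm.2.2.1) hm.2.2.2
  rw [h1, sum_comm, prod_one_add, prod_one_add, mul_sum, ← sum_add_distrib]
  refine sum_le_sum fun E hE => ?_
  have hEp : ∀ p ∈ E, p.Prime ∧ z < p := fun p hp => hPm p (mem_powerset.1 hE hp)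
  have hEl : ∀ p ∈ E, p.Prime ∧ ¬ (p : ℤ) ∣ R.leadingCoeff ∧ (PW z).Coprime p := by
    intro p hp
    refine ⟨(hEp p hp).1, fun hdvd => ?_, coprime_PW (hEp p hp).1 (hEp p hp).2⟩
    have h2 : p ∣ R.leadingCoeff.natAbs := Int.natCast_dvd.1 hdvd
    have h3 : R.leadingCoeff.natAbs ≠ 0 := Int.natAbs_ne_zero.2 (Polynomial.leadingCoeff_ne_zero.2 hR)
    have h4 := Nat.le_of_dvd (Nat.pos_of_ne_zero h3) h2
    have := (hEp p hp).2
    omega
  have h2 : ∑ m ∈ S, (if (∏ p ∈ E, p) ∣ (R.eval (m : ℤ)).natAbs then ∏ p ∈ E, gj M p else 0) =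
      ((S.filter fun m : ℕ => (∏ p ∈ E, p) ∣ (R.eval (m : ℤ)).natAbs).card : ℝ) * ∏ p ∈ E, gj M p := by
    rw [← sum_filter, sum_const, nsmul_eq_mul]
  rw [h2]
  have h3 : ((S.filter fun m : ℕ => (∏ p ∈ E, p) ∣ (R.eval (m : ℤ)).natAbs).card : ℝ) ≤
      d ^ E.card * ((Y : ℝ) / (PW z * ∏ p ∈ E, p : ℕ) + 1) := by
    refine cnt_roots Y d R hd E hEl c _ ((filter_subset _ _).trans (filter_subset _ _)) ?_ ?_
    · intro m hm
      exact (mem_filter.1 (mem_filter.1 hm).1).2.1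
    · intro m hm p hp
      rw [Int.natCast_dvd]
      exact (dvd_prod_of_mem _ hp).trans (mem_filter.1 hm).2
  have h4 : ∏ p ∈ E, (d : ℝ) * gj M p / (p : ℝ) = d ^ E.card * (∏ p ∈ E, gj M p) / ((∏ p ∈ E, p : ℕ) : ℝ) := by
    rw [prod_div_distrib, prod_mul_distrib, prod_const]
    push_cast
    rfl
  have h5 : ∏ p ∈ E, (d : ℝ) * gj M p = d ^ E.card * (∏ p ∈ E, gj M p) := by
    rw [prod_mul_distrib, prod_const]
  rw [h4, h5]
  calc _ ≤ (d ^ E.card * ((Y : ℝ) / (PW z * ∏ p ∈ E, p : ℕ) + 1)) * ∏ p ∈ E, gj M p :=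
        mul_le_mul_of_nonneg_right h3 (hg0 E hE)
    _ = _ := by
      have hWr : (PW z : ℝ) ≠ 0 := by exact_mod_cast (NeZero.ne (PW z))
      have her : ((∏ p ∈ E, p : ℕ) : ℝ) ≠ 0 := by
        exact_mod_cast (prod_pos fun p hp => (hEp p hp).1.pos).ne'
      push_cast at her ⊢
      field_simp

theorem first_le {C₁ : ℝ} (z Z M d : ℕ) (hz : 2 ≤ z) (hM : 8 * M ≤ z)
    (hSQ : ∑ p ∈ (Ioc z Z).filter Nat.Prime, 1 / (p : ℝ) ^ 2 ≤ C₁ / ((z : ℝ) * Real.log z)) :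
    ∏ p ∈ (Ioc z Z).filter Nat.Prime, (1 + d * gj M p / p) ≤ Real.exp (d * C₁ / Real.log z) := by
  have hPm : ∀ p ∈ (Ioc z Z).filter Nat.Prime, 2 ≤ p ∧ 8 * M ≤ p := by
    intro p hp
    rw [mem_filter, mem_Ioc] at hp
    omega
  have hz0 : (0 : ℝ) < z := by exact_mod_cast (show 0 < z by omega)
  have hlog : 0 < Real.log z := Real.log_pos (by exact_mod_cast (show 1 < z by omega))
  have h1 : ∏ p ∈ (Ioc z Z).filter Nat.Prime, (1 + d * gj M p / p) ≤
      ∏ p ∈ (Ioc z Z).filter Nat.Prime, Real.exp (4 * d * M * (1 / (p : ℝ) ^ 2)) := by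
    refine prod_le_prod (fun p hp => ?_) fun p hp => ?_
    · have := gj_nonneg (M := M) (hPm p hp).1
      positivity
    · have h2 := gj_le (hPm p hp).1 (hPm p hp).2
      have hp0 : (0 : ℝ) < p := by exact_mod_cast (show 0 < p by have := (hPm p hp).1; omega)
      have h3 : d * gj M p / p ≤ 4 * d * M * (1 / (p : ℝ) ^ 2) := by
        calc d * gj M p / p ≤ d * (4 * M / p) / p := by gcongr
          _ = _ := by ring
      have := Real.add_one_le_exp (4 * (d : ℝ) * M * (1 / (p : ℝ) ^ 2))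
      linarith
  refine h1.trans ?_
  rw [← Real.exp_sum, ← mul_sum]
  refine Real.exp_le_exp.2 ?_
  have hMr : 4 * (M : ℝ) ≤ z := by
    have : 8 * (M : ℝ) ≤ z := by exact_mod_cast hM
    linarith
  have hC1 : 0 ≤ C₁ / ((z : ℝ) * Real.log z) := le_trans (sum_nonneg fun _ _ => by positivity) hSQ
  calc 4 * (d : ℝ) * M * ∑ p ∈ (Ioc z Z).filter Nat.Prime, 1 / (p : ℝ) ^ 2 ≤
        4 * (d : ℝ) * M * (C₁ / ((z : ℝ) * Real.log z)) := by gcongr
    _ = d * (4 * M) * (C₁ / ((z : ℝ) * Real.log z)) := by ring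
    _ ≤ d * z * (C₁ / ((z : ℝ) * Real.log z)) := by gcongr
    _ = d * C₁ / Real.log z := by field_simp

theorem second_le {C₂ : ℝ} (z Z M d : ℕ) (_hz : 2 ≤ z) (hM : 8 * M ≤ z) (hC₂ :
    ∑ p ∈ (Icc 1 Z).filter Nat.Prime, 1 / (p : ℝ) ≤ Real.log (Real.log Z) + C₂)
    (hC : C₂ ≤ Real.log (Real.log Z)) (hL : 1 ≤ Real.log Z) :
    ∏ p ∈ (Ioc z Z).filter Nat.Prime, (1 + d * gj M p) ≤ Real.log Z ^ (8 * d * M) := by
  have hPm : ∀ p ∈ (Ioc z Z).filter Nat.Prime, 2 ≤ p ∧ 8 * M ≤ p := by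
    intro p hp
    rw [mem_filter, mem_Ioc] at hp
    omega
  have h1 : ∏ p ∈ (Ioc z Z).filter Nat.Prime, (1 + d * gj M p) ≤
      ∏ p ∈ (Ioc z Z).filter Nat.Prime, Real.exp (4 * d * M * (1 / (p : ℝ))) := by
    refine prod_le_prod (fun p hp => ?_) fun p hp => ?_
    · have := gj_nonneg (M := M) (hPm p hp).1
      positivity
    · have h2 := gj_le (hPm p hp).1 (hPm p hp).2
      have h3 : d * gj M p ≤ 4 * d * M * (1 / (p : ℝ)) := by
        calc d * gj M p ≤ d * (4 * M / p) := by gcongr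
          _ = _ := by ring
      have := Real.add_one_le_exp (4 * (d : ℝ) * M * (1 / (p : ℝ)))
      linarith
  refine h1.trans ?_
  rw [← Real.exp_sum, ← mul_sum]
  have h2 : ∑ p ∈ (Ioc z Z).filter Nat.Prime, 1 / (p : ℝ) ≤ 2 * Real.log (Real.log Z) := by
    have h3 : ∑ p ∈ (Ioc z Z).filter Nat.Prime, 1 / (p : ℝ) ≤
        ∑ p ∈ (Icc 1 Z).filter Nat.Prime, 1 / (p : ℝ) := by
      refine sum_le_sum_of_subset_of_nonneg ?_ fun _ _ _ => by positivity
      refine filter_subset_filter _ fun p hp => ?_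
      rw [mem_Ioc] at hp
      rw [mem_Icc]
      omega
    linarith
  have h3 : 4 * (d : ℝ) * M * ∑ p ∈ (Ioc z Z).filter Nat.Prime, 1 / (p : ℝ) ≤
      ((8 * d * M : ℕ) : ℝ) * Real.log (Real.log Z) := by
    push_cast
    calc 4 * (d : ℝ) * M * ∑ p ∈ (Ioc z Z).filter Nat.Prime, 1 / (p : ℝ) ≤
          4 * d * M * (2 * Real.log (Real.log Z)) := by gcongr
      _ = _ := by ring
  refine (Real.exp_le_exp.2 h3).trans (le_of_eq ?_)
  rw [Real.exp_nat_mul, Real.exp_log (by linarith)]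

/-- the conclusion of `S_JPOLY` for `3 ≤ Z` -/
def JPOLYc : Prop := ∀ d : ℕ, ∃ (C z₀ : ℕ), 1 ≤ C ∧ ∀ (z Y Z M : ℕ) (R : Polynomial ℤ), z₀ ≤ z →
  8 * M ≤ z → 3 ≤ Z → Y ≤ Z → (PW z : ℝ) ^ 2 * Real.log Z ^ (C * (M + 1)) ≤ Y →
  R ≠ 0 → R.natDegree ≤ d → R.leadingCoeff.natAbs ≤ z → ∀ c : ZMod (PW z),
  ∑ m ∈ (Ioc Y (2 * Y)).filter (fun m : ℕ => (m : ZMod (PW z)) = c ∧ R.eval (m : ℤ) ≠ 0 ∧
    (R.eval (m : ℤ)).natAbs ≤ Z), JP z (R.eval (m : ℤ)).natAbs ^ M ≤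
      ((Y : ℝ) / PW z) * (1 + C / Real.log z)

theorem main (hSQ2 : S_SQ2) : JPOLYc := by
  intro d
  obtain ⟨C₁, hC₁, hSQ⟩ := hSQ2
  obtain ⟨C₂, hC₂⟩ := Pool.Agent.Helper256.KM.mertens_inv
  have hev : ∀ᶠ z : ℕ in atTop, Real.exp ((z : ℝ) / 2) ≤ PW z ∧ 60 ≤ z ∧ 1 ≤ Real.log z ∧
      d * C₁ ≤ Real.log z ∧ C₂ ≤ Real.log (z : ℝ) := by
    have h1 : Tendsto (fun z : ℕ => Real.log z) atTop atTop :=
      Real.tendsto_log_atTop.comp tendsto_natCast_atTop_atTop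
    filter_upwards [PW_large, eventually_ge_atTop 60, h1.eventually_ge_atTop 1,
      h1.eventually_ge_atTop (d * C₁), h1.eventually_ge_atTop C₂] with z a b c d e
    exact ⟨a, b, c, d, e⟩
  obtain ⟨z₀, hz₀⟩ := hev.exists_forall_of_atTop
  obtain ⟨C, hC⟩ := exists_nat_ge (2 * (d * C₁) + 8 * d + 1)
  have hdr : (0 : ℝ) ≤ d * C₁ := by positivity
  have hC8 : 8 * d + 1 ≤ C := by
    have : ((8 * d + 1 : ℕ) : ℝ) ≤ C := by
      push_cast
      linarith
    exact_mod_cast this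
  refine ⟨C, z₀, by omega, ?_⟩
  intro z Y Z M R hz hM hZ3 hYZ hY hR hRd hRl c
  obtain ⟨hW, hz60, hlog1, hlogC, hlogC2⟩ := hz₀ z hz
  have hz60r : (60 : ℝ) ≤ z := by exact_mod_cast hz60
  have hW0 : (0 : ℝ) < PW z := by exact_mod_cast Nat.pos_of_ne_zero (NeZero.ne (PW z))
  have hW1 : (1 : ℝ) ≤ PW z := by exact_mod_cast Nat.pos_of_ne_zero (NeZero.ne (PW z))
  have hlog0 : 0 < Real.log z := by linarith
  set L := Real.log Z with hL
  have hZ0 : (0 : ℝ) < Z := by exact_mod_cast (show 0 < Z by omega)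
  have hL1 : 1 ≤ L := by
    rw [hL, Real.le_log_iff_exp_le hZ0]
    have : (3 : ℝ) ≤ Z := by exact_mod_cast hZ3
    linarith [Real.exp_one_lt_d9]
  have hWY : (PW z : ℝ) ^ 2 ≤ Y :=
    le_trans (le_mul_of_one_le_right (by positivity) (one_le_pow₀ hL1)) hY
  have hYZr : (Y : ℝ) ≤ Z := by exact_mod_cast hYZ
  have hLz : (z : ℝ) ≤ L := by
    rw [hL, Real.le_log_iff_exp_le hZ0]
    refine le_trans ?_ (hWY.trans hYZr)
    calc Real.exp (z : ℝ) = Real.exp ((z : ℝ) / 2) ^ 2 := by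
          rw [← Real.exp_nat_mul]
          congr 1
          push_cast
          ring
      _ ≤ _ := by gcongr
  have hY0 : (0 : ℝ) < Y := lt_of_lt_of_le (by positivity) hWY
  have hloglog : C₂ ≤ Real.log L := hlogC2.trans (Real.log_le_log (by linarith) hLz)
  have hMe : ∑ p ∈ (Icc 1 Z).filter Nat.Prime, 1 / (p : ℝ) ≤ Real.log (Real.log Z) + C₂ := by
    have := (abs_le.1 (hC₂ Z hZ3)).2
    linarith
  have hA1 := first_le z Z M d (by omega) hM (hSQ z Z (by omega))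
  have hA2 := second_le z Z M d (by omega) hM hMe (by rw [← hL]; exact hloglog) hL1
  rw [← hL] at hA2
  have hexp : Real.exp (d * C₁ / Real.log z) ≤ 1 + 2 * (d * C₁ / Real.log z) := by
    have h1 : 0 ≤ d * C₁ / Real.log z := by positivity
    have h2 : d * C₁ / Real.log z ≤ 1 := by
      rw [div_le_one hlog0]
      exact hlogC
    have := exp_quad h1 h2
    nlinarith
  have hkey : (PW z : ℝ) * L ^ (8 * d * M) * Real.log z ≤ Y := by
    refine le_trans ?_ hY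
    have h1 : Real.log z ≤ PW z := by
      have h2 := Real.log_le_sub_one_of_pos (show (0 : ℝ) < z by linarith)
      have h3 := Real.add_one_le_exp ((z : ℝ) / 2)
      have h4 : Real.log z ≤ (z : ℝ) / 2 + 1 := by
        have h5 : Real.log z = Real.log (z / 2) + Real.log 2 := by
          rw [← Real.log_mul (by positivity) two_ne_zero]
          congr 1
          ring
        have h6 := Real.log_le_sub_one_of_pos (show (0 : ℝ) < z / 2 by linarith)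
        have h7 := Real.log_two_lt_d9
        linarith
      linarith
    have h2 : L ^ (8 * d * M) ≤ L ^ (C * (M + 1)) := by
      refine pow_le_pow_right₀ hL1 ?_
      exact Nat.mul_le_mul (by omega) (by omega)
    calc (PW z : ℝ) * L ^ (8 * d * M) * Real.log z ≤ (PW z : ℝ) * L ^ (C * (M + 1)) * PW z := by gcongr
      _ = _ := by ring
  set T : ℝ := (Y : ℝ) / PW z with hT
  have hT0 : 0 < T := by positivity
  have hTL : L ^ (8 * d * M) ≤ T * (1 / Real.log z) := by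
    rw [hT, mul_one_div, div_div, le_div_iff₀ (by positivity)]
    calc L ^ (8 * d * M) * (↑(PW z) * Real.log ↑z) = (PW z : ℝ) * L ^ (8 * d * M) * Real.log z := by ring
      _ ≤ Y := hkey
  refine (main_sum z Y Z M d (by omega) R hR hRd hRl c).trans ?_
  rw [← hT]
  have h1 := mul_le_mul_of_nonneg_left (hA1.trans hexp) hT0.le
  have h2 : T * (1 + 2 * (d * C₁ / Real.log z)) + T * (1 / Real.log z) ≤ T * (1 + C / Real.log z) := by
    have e : T * (1 + 2 * (d * C₁ / Real.log z)) + T * (1 / Real.log z) =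
      T * (1 + (2 * (d * C₁) + 1) / Real.log z) := by ring
    rw [e]
    have h3 : 2 * (d * C₁) + 1 ≤ (C : ℝ) := by
      have : (0 : ℝ) ≤ 8 * d := by positivity
      linarith
    gcongr
  linarith

end Pool.Agent.Q53.LQ.JPOLY
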